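import Mathlib
import Pool.Agent.Y902.GN.Tc

/-!
# Unique solutions of linear systems with small coefficients are small
-/

set_option autoImplicit false

namespace Pool.Agent.U583.TV

open Pool.Agent.Y902.GN

theorem htLe_fsum {ι : Type*} (s : Finset ι) (f : ι → ℚ) {B : ℕ}
    (h : ∀ i ∈ s, HtLe B (f i)) : HtLe ((2 * B) ^ s.card) (∑ i ∈ s, f i) := by
  classical
  induction s using Finset.induction_on with
  | empty => simpa using HtLe.zero
  | insert i s hi ih =>
    rw [Finset.sum_insert hi, Finset.card_insert_of_notMem hi]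
    have h1 := (h i (Finset.mem_insert_self _ _)).add
      (ih fun j hj => h j (Finset.mem_insert_of_mem hj))
    refine h1.mono (le_of_eq ?_)
    ring

theorem htLe_fsum' {ι : Type*} (s : Finset ι) (f : ι → ℚ) {B k : ℕ} (hB : 2 ≤ B)
    (h : ∀ i ∈ s, HtLe (B ^ k) (f i)) : HtLe (B ^ ((k + 1) * s.card)) (∑ i ∈ s, f i) := by
  refine (htLe_fsum s f h).mono ?_
  rw [pow_mul]
  refine Nat.pow_le_pow_left ?_ _
  rw [pow_succ, mul_comm]
  exact Nat.mul_le_mul_left _ hB

/-- the exponent in the bound for determinants -/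
def uc (k : ℕ) : ℕ := (k + 1) * k.factorial

theorem htLe_det {ι : Type*} [Fintype ι] [DecidableEq ι] {B : ℕ} (hB : 2 ≤ B)
    (M : Matrix ι ι ℚ) (h : ∀ i j, HtLe B (M i j)) : HtLe (B ^ uc (Fintype.card ι)) M.det := by
  rw [Matrix.det_apply]
  have h1 := htLe_fsum' (Finset.univ : Finset (Equiv.Perm ι))
    (fun σ => Equiv.Perm.sign σ • ∏ i, M (σ i) i) (k := Fintype.card ι) hB (by
      intro σ _
      have h2 : HtLe (B ^ Fintype.card ι) (∏ i, M (σ i) i) := by
        have := HtLe.prod Finset.univ (fun i => M (σ i) i) (fun _ => B) fun i _ => h _ _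
        simpa using this
      rcases Int.units_eq_one_or (Equiv.Perm.sign σ) with hs | hs
      · rw [hs, one_smul]
        exact h2
      · rw [hs]
        simp only [Units.neg_smul, one_smul]
        exact h2.neg)
  rw [Finset.card_univ, Fintype.card_perm] at h1
  exact h1

/-- the unique solution of a system of linear equations with small coefficients is small -/
theorem uniq_small {ι : Type*} [Fintype ι] [DecidableEq ι] {B : ℕ} (hB : 2 ≤ B)
    (R : Set ((ι → ℚ) × ℚ)) (hR : ∀ e ∈ R, (∀ i, HtLe B (e.1 i)) ∧ HtLe B e.2) (x : ι → ℚ)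
    (hx : ∀ e ∈ R, ∑ i, e.1 i * x i = e.2)
    (hu : ∀ x' : ι → ℚ, (∀ e ∈ R, ∑ i, e.1 i * x' i = e.2) → x' = x) (i : ι) :
    HtLe (B ^ (2 * uc (Fintype.card ι))) (x i) := by
  classical
  have htop : Submodule.span ℚ (Prod.fst '' R) = ⊤ := by
    by_contra hne
    obtain ⟨f, hf0, hf⟩ := Submodule.exists_le_ker_of_lt_top _ (lt_top_iff_ne_top.2 hne)
    obtain ⟨q, hq⟩ : ∃ q : ι → ℚ, q = fun i => f (fun j => if i = j then 1 else 0) := ⟨_, rfl⟩
    have hfx : ∀ x : ι → ℚ, f x = ∑ i, x i * q i := by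
      intro x
      rw [LinearMap.pi_apply_eq_sum_univ f x, hq]
      rfl
    have h1 := hu (x + q) (fun e he => by
      have h2 : f e.1 = 0 := hf (Submodule.subset_span ⟨e, he, rfl⟩)
      rw [hfx] at h2
      simp only [Pi.add_apply, mul_add, Finset.sum_add_distrib]
      rw [hx e he, h2, add_zero])
    apply hf0
    refine LinearMap.ext fun y => ?_
    rw [hfx, LinearMap.zero_apply]
    refine Finset.sum_eq_zero fun i _ => ?_
    have h3 := congrFun h1 i
    rw [Pi.add_apply, add_eq_left] at h3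
    rw [h3, mul_zero]
  obtain ⟨f, hf1, hf2, hf3⟩ := Submodule.exists_fun_fin_finrank_span_eq ℚ (Prod.fst '' R)
  have hcard : Module.finrank ℚ (Submodule.span ℚ (Prod.fst '' R)) = Fintype.card ι := by
    rw [htop, finrank_top, Module.finrank_fintype_fun_eq_card]
  obtain ⟨e⟩ : Nonempty (ι ≃ Fin (Module.finrank ℚ (Submodule.span ℚ (Prod.fst '' R)))) :=
    ⟨(Fintype.equivFinOfCardEq hcard.symm)⟩
  choose g hg1 hg2 using fun j => hf1 (e j)
  obtain ⟨M, hM⟩ : ∃ M : Matrix ι ι ℚ, M = Matrix.of fun j => (g j).1 := ⟨_, rfl⟩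
  obtain ⟨b, hb⟩ : ∃ b : ι → ℚ, b = fun j => (g j).2 := ⟨_, rfl⟩
  have hind : LinearIndependent ℚ (fun j => M j) := by
    have h1 : (fun j => M j) = f ∘ e := by
      funext j
      rw [hM]
      exact hg2 j
    rw [h1]
    exact hf3.comp _ e.injective
  have hunit : IsUnit M := Matrix.linearIndependent_rows_iff_isUnit.1 hind
  have hdet : M.det ≠ 0 := ((Matrix.isUnit_iff_isUnit_det M).1 hunit).ne_zero
  have hMx : M.mulVec x = b := by
    funext j
    rw [hM, hb]
    exact hx (g j) (hg1 j)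
  have hcr : M.cramer b = M.det • x := by
    rw [← hMx, Matrix.cramer_eq_adjugate_mulVec, Matrix.mulVec_mulVec, Matrix.adjugate_mul,
      Matrix.smul_mulVec, Matrix.one_mulVec]
  have hxi : x i = M.cramer b i / M.det := by
    rw [hcr, Pi.smul_apply, smul_eq_mul]
    field_simp
  have hMs : ∀ j l, HtLe B (M j l) := fun j l => by
    rw [hM]
    exact (hR _ (hg1 j)).1 l
  have hbs : ∀ j, HtLe B (b j) := fun j => by
    rw [hb]
    exact (hR _ (hg1 j)).2
  have h1 : HtLe (B ^ uc (Fintype.card ι)) (M.cramer b i) := by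
    rw [Matrix.cramer_apply]
    refine htLe_det hB _ fun j l => ?_
    rw [Matrix.updateCol_apply]
    split_ifs
    · exact hbs j
    · exact hMs j l
  have h2 : HtLe (B ^ uc (Fintype.card ι)) (M.det)⁻¹ := (htLe_det hB _ hMs).inv hdet
  rw [hxi, div_eq_mul_inv, two_mul, pow_add]
  exact h1.mul h2

end Pool.Agent.U583.TV
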