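import Mathlib

/-!
# Vectors of minimal support in a space of vectors
-/

set_option autoImplicit false

namespace Pool.Agent.U583.TV

variable {κ : Type*}

/-- `v` is a non-zero vector of `V` of minimal support -/
def IsCirc (V : Submodule ℚ (κ → ℚ)) (v : κ → ℚ) : Prop :=
  v ∈ V ∧ v ≠ 0 ∧ ∀ u ∈ V, u ≠ 0 → (∀ k, v k = 0 → u k = 0) → ∀ k, u k = 0 → v k = 0

theorem IsCirc.unique {V : Submodule ℚ (κ → ℚ)} {v u : κ → ℚ} (h : IsCirc V v) (hu : u ∈ V)
    (hs : ∀ k, v k = 0 → u k = 0) {j : κ} (hj : v j ≠ 0) : u = (u j / v j) • v := by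
  by_contra hne
  have h1 : u - (u j / v j) • v ∈ V := V.sub_mem hu (V.smul_mem _ h.1)
  refine hj (h.2.2 _ h1 (sub_ne_zero.2 hne) (fun k hk => ?_) j ?_)
  · simp [hk, hs k hk]
  · simp only [Pi.sub_apply, Pi.smul_apply, smul_eq_mul]
    field_simp
    simp

theorem circ_span [Fintype κ] (V : Submodule ℚ (κ → ℚ)) :
    ∀ (n : ℕ) (u : κ → ℚ), u ∈ V → (Finset.univ.filter fun k => u k ≠ 0).card = n →
      u ∈ Submodule.span ℚ {v | IsCirc V v} := by
  classical
  intro n
  induction n using Nat.strong_induction_on with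
  | _ n ih =>
    intro u hu hn
    by_cases hu0 : u = 0
    · rw [hu0]
      exact Submodule.zero_mem _
    -- a vector of minimal support below `u`
    obtain ⟨P, hP⟩ : ∃ P : Set ℕ, ∀ m, m ∈ P ↔ ∃ v ∈ V, v ≠ 0 ∧ (∀ k, u k = 0 → v k = 0) ∧
        (Finset.univ.filter fun k => v k ≠ 0).card = m := ⟨{m | _}, fun _ => Iff.rfl⟩
    have hne : P.Nonempty := ⟨_, (hP _).2 ⟨u, hu, hu0, fun _ h => h, rfl⟩⟩
    obtain ⟨v, hv, hv0, hvu, hvm⟩ := (hP _).1 (Nat.sInf_mem hne)
    have hcirc : IsCirc V v := by
      refine ⟨hv, hv0, fun w hw hw0 hwv k hk => ?_⟩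
      by_contra hvk
      have h1 : (Finset.univ.filter fun k => w k ≠ 0).card <
          (Finset.univ.filter fun k => v k ≠ 0).card := by
        refine Finset.card_lt_card ?_
        rw [Finset.ssubset_iff_of_subset]
        · exact ⟨k, by simp [hvk], by simp [hk]⟩
        · intro l hl
          simp only [Finset.mem_filter, Finset.mem_univ, true_and] at hl ⊢
          exact fun h => hl (hwv l h)
      rw [hvm] at h1
      have h5 := Nat.sInf_le ((hP _).2 ⟨w, hw, hw0, fun k hk => hwv k (hvu k hk), rfl⟩)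
      exact absurd h5 (not_le.2 h1)
    obtain ⟨j, hj⟩ : ∃ j, v j ≠ 0 := by
      by_contra hcon
      push Not at hcon
      exact hv0 (funext hcon)
    have huj : u j ≠ 0 := fun h => hj (hvu j h)
    have h1 : u - (u j / v j) • v ∈ V := V.sub_mem hu (V.smul_mem _ hv)
    have h2 : (Finset.univ.filter fun k => (u - (u j / v j) • v) k ≠ 0).card < n := by
      rw [← hn]
      refine Finset.card_lt_card ?_
      rw [Finset.ssubset_iff_of_subset]
      · refine ⟨j, by simp [huj], ?_⟩
        simp only [Finset.mem_filter, Finset.mem_univ, true_and, not_not, Pi.sub_apply,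
          Pi.smul_apply, smul_eq_mul]
        field_simp
        simp
      · intro l hl
        simp only [Finset.mem_filter, Finset.mem_univ, true_and] at hl ⊢
        intro h
        apply hl
        simp [h, hvu l h]
    have h3 := ih _ h2 _ h1 rfl
    have h4 : u = (u - (u j / v j) • v) + (u j / v j) • v := by simp
    rw [h4]
    exact Submodule.add_mem _ h3 (Submodule.smul_mem _ _ (Submodule.subset_span hcirc))

/-- a linear property of all vectors of minimal support is a property of all vectors -/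
theorem circ_induct [Fintype κ] {V : Submodule ℚ (κ → ℚ)} {M : Type*} [AddCommGroup M]
    [Module ℚ M] (f : (κ → ℚ) →ₗ[ℚ] M) (h : ∀ v, IsCirc V v → f v = 0) {u : κ → ℚ}
    (hu : u ∈ V) : f u = 0 := by
  have h1 := circ_span V _ u hu rfl
  have h2 : Submodule.span ℚ {v | IsCirc V v} ≤ LinearMap.ker f :=
    Submodule.span_le.2 fun v hv => h v hv
  exact h2 h1

end Pool.Agent.U583.TV
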