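import Mathlib
import Pool.Agent.U583.TV.Circ

/-!
# Closed subvarieties of tori with finite stabilizer
-/

set_option autoImplicit false

namespace Pool.Agent.U583.TV

/-- the value at `x` of the polynomial with the monomials `x ^ (m k)` and the coefficients `G k` -/
def ev {K : Type} [Field K] {κ : Type} [Fintype κ] {n : ℕ} (m : κ → Fin n → ℕ) (G : κ → ℚ)
    (x : Fin n → K) : K := ∑ k, (G k : K) * ∏ i, x i ^ m k i

/-- the closed subvariety `X_c` of the torus: the zeros with non-zero coordinates in the field `K` of the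
polynomials with the coefficients `c q` -/
def Zer (K : Type) [Field K] {κ : Type} [Fintype κ] {n r : ℕ} (m : κ → Fin n → ℕ)
    (c : Fin r → κ → ℤ) : Set (Fin n → K) :=
  {x | (∀ i, x i ≠ 0) ∧ ∀ q, ev m (fun k => (c q k : ℚ)) x = 0}

/-- the space spanned by the equations -/
def Sp {κ : Type} {r : ℕ} (c : Fin r → κ → ℤ) : Submodule ℚ (κ → ℚ) :=
  Submodule.span ℚ (Set.range fun q k => (c q k : ℚ))

variable {κ : Type} [Fintype κ] {n r : ℕ} {m : κ → Fin n → ℕ} {c : Fin r → κ → ℤ}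

/-- the value as a linear function of the coefficients -/
def evL {K : Type} [Field K] [CharZero K] (m : κ → Fin n → ℕ) (x : Fin n → K) :
    (κ → ℚ) →ₗ[ℚ] K where
  toFun G := ev m G x
  map_add' G G' := by
    unfold ev
    rw [← Finset.sum_add_distrib]
    refine Finset.sum_congr rfl fun k _ => ?_
    simp only [Pi.add_apply]
    push_cast
    ring
  map_smul' t G := by
    unfold ev
    rw [RingHom.id_apply, Rat.smul_def, Finset.mul_sum]
    refine Finset.sum_congr rfl fun k _ => ?_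
    simp only [Pi.smul_apply, smul_eq_mul]
    push_cast
    ring

theorem evL_apply {K : Type} [Field K] [CharZero K] (x : Fin n → K) (G : κ → ℚ) :
    evL m x G = ev m G x := rfl

theorem Zer.ev_eq {K : Type} [Field K] [CharZero K] {x : Fin n → K} (hx : x ∈ Zer K m c)
    {v : κ → ℚ} (hv : v ∈ Sp c) : ev m v x = 0 := by
  have h1 : Sp c ≤ LinearMap.ker (evL m x) := by
    refine Submodule.span_le.2 ?_
    rintro _ ⟨q, rfl⟩
    exact hx.2 q
  exact h1 hv

theorem prod_scale {K : Type} [Field K] (x : Fin n → K) {s : K} (hs : s ≠ 0) (a : Fin n → ℤ)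
    (e : Fin n → ℕ) : ∏ i, (s ^ a i * x i) ^ e i = s ^ (∑ i, a i * (e i : ℤ)) * ∏ i, x i ^ e i := by
  have h1 : s ^ (∑ i, a i * (e i : ℤ)) = ∏ i, s ^ (a i * (e i : ℤ)) := by
    have : ∀ t : Finset (Fin n), s ^ (∑ i ∈ t, a i * (e i : ℤ)) = ∏ i ∈ t, s ^ (a i * (e i : ℤ)) := by
      intro t
      induction t using Finset.induction_on with
      | empty => simp
      | insert i t hi ih => rw [Finset.sum_insert hi, Finset.prod_insert hi, zpow_add₀ hs, ih]
    exact this _
  rw [h1, ← Finset.prod_mul_distrib]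
  refine Finset.prod_congr rfl fun i _ => ?_
  rw [mul_pow, zpow_mul, zpow_natCast]

theorem ev_scale {K : Type} [Field K] (G : κ → ℚ) (x : Fin n → K) {s : K} (hs : s ≠ 0)
    (a : Fin n → ℤ) (w : ℤ) (h : ∀ k, G k ≠ 0 → ∑ i, a i * (m k i : ℤ) = w) :
    ev m G (fun i => s ^ a i * x i) = s ^ w * ev m G x := by
  unfold ev
  rw [Finset.mul_sum]
  refine Finset.sum_congr rfl fun k _ => ?_
  by_cases hk : G k = 0
  · simp [hk]
  · rw [prod_scale x hs, h k hk]
    ring

/-- the closed subvariety is not invariant under a subtorus of positive dimension -/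
def FinStab {κ : Type} [Fintype κ] {n r : ℕ} (m : κ → Fin n → ℕ) (c : Fin r → κ → ℤ) : Prop :=
  ∀ a : Fin n → ℤ, a ≠ 0 → ∃ y ∈ Zer ℂ m c, ∃ s : ℂ, s ≠ 0 ∧ (fun i => s ^ a i * y i) ∉ Zer ℂ m c

theorem FinStab.circ (h : FinStab m c) {a : Fin n → ℤ} (ha : a ≠ 0) :
    ∃ v, IsCirc (Sp c) v ∧ ∃ j k, v j ≠ 0 ∧ v k ≠ 0 ∧ ∑ i, a i * ((m j i : ℤ) - m k i) ≠ 0 := by
  by_contra hcon
  push Not at hcon
  obtain ⟨y, hy, s, hs, hn⟩ := h a ha
  apply hn
  refine ⟨fun i => mul_ne_zero (zpow_ne_zero _ hs) (hy.1 i), fun q => ?_⟩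
  have hq : (fun k => (c q k : ℚ)) ∈ Sp c := Submodule.subset_span ⟨q, rfl⟩
  have h1 := circ_induct (evL m (fun i => s ^ a i * y i)) (fun v hv => ?_) hq
  · exact h1
  obtain ⟨j, hj⟩ : ∃ j, v j ≠ 0 := by
    by_contra hcon
    push Not at hcon
    exact hv.2.1 (funext hcon)
  rw [evL_apply, ev_scale v y hs a (∑ i, a i * (m j i : ℤ)) (fun k hk => by
    have := hcon v hv k j hk hj
    simp only [mul_sub, Finset.sum_sub_distrib] at this
    linarith), Zer.ev_eq hy hv.1, mul_zero]

/-- the part of a polynomial with the monomials in `W` -/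
def part [DecidableEq κ] (G : κ → ℚ) (W : Finset κ) : κ → ℚ := fun k => if k ∈ W then G k else 0

theorem FinStab.parts [DecidableEq κ] (h : FinStab m c) {a : Fin n → ℤ} (ha : a ≠ 0) :
    ∃ (q : Fin r) (w : ℤ), part (fun k => (c q k : ℚ))
      (Finset.univ.filter fun k => ∑ i, a i * (m k i : ℤ) = w) ∉ Sp c := by
  by_contra hcon
  push Not at hcon
  obtain ⟨y, hy, s, hs, hn⟩ := h a ha
  apply hn
  refine ⟨fun i => mul_ne_zero (zpow_ne_zero _ hs) (hy.1 i), fun q => ?_⟩
  obtain ⟨P, hP⟩ : ∃ P : ℤ → κ → ℚ, ∀ w, P w = part (fun k => (c q k : ℚ))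
      (Finset.univ.filter fun k => ∑ i, a i * (m k i : ℤ) = w) := ⟨_, fun _ => rfl⟩
  obtain ⟨I, hI⟩ : ∃ I : Finset ℤ, I = Finset.univ.image fun k => ∑ i, a i * (m k i : ℤ) :=
    ⟨_, rfl⟩
  have h1 : (fun k => (c q k : ℚ)) = ∑ w ∈ I, P w := by
    funext k
    rw [Finset.sum_apply, Finset.sum_eq_single (∑ i, a i * (m k i : ℤ))]
    · rw [hP]
      simp [part]
    · intro w _ hw
      rw [hP]
      simp only [part, Finset.mem_filter, Finset.mem_univ, true_and]
      rw [if_neg fun h => hw h.symm]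
    · intro hk
      exact absurd (by rw [hI]; exact Finset.mem_image_of_mem _ (Finset.mem_univ k)) hk
  have h2 : evL m (fun i => s ^ a i * y i) (fun k => (c q k : ℚ)) = 0 := by
    rw [h1, map_sum]
    refine Finset.sum_eq_zero fun w _ => ?_
    rw [evL_apply, ev_scale (P w) y hs a w (fun k hk => ?_), Zer.ev_eq hy (by
      rw [hP]
      exact hcon q w), mul_zero]
    rw [hP] at hk
    simp only [part, Finset.mem_filter, Finset.mem_univ, true_and] at hk
    by_contra hkw
    rw [if_neg hkw] at hk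
    exact hk rfl
  exact h2

end Pool.Agent.U583.TV
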