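import Mathlib
import Pool.Agent.Y902.GN.Tc4
import Pool.Agent.U583.TV.Stab

/-!
# Rational points of tori with few prime factors: blocks and closeness
-/

set_option autoImplicit false

namespace Pool.Agent.U583.TV

open Pool.Agent.Y902.GN

/-- minimal vanishing subsums with at least two terms -/
def MinQ {κ : Type} (a : κ → ℚ) (J : Finset κ) : Prop :=
  J.Nontrivial ∧ ∑ k ∈ J, a k = 0 ∧ ∀ K ⊆ J, K.Nonempty → K ≠ J → ∑ k ∈ K, a k ≠ 0

theorem MinQ.nz {κ : Type} {a : κ → ℚ} {J : Finset κ} (h : MinQ a J) {k : κ} (hk : k ∈ J) :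
    a k ≠ 0 := by
  intro h0
  refine h.2.2 {k} (Finset.singleton_subset_iff.2 hk) (Finset.singleton_nonempty k) ?_
    (by simpa using h0)
  intro hJ
  have := h.1
  rw [← hJ] at this
  exact Finset.not_nontrivial_singleton this

theorem minq_const {κ : Type} [DecidableEq κ] (a : κ → ℚ) (w : κ → ℤ)
    (h : ∀ J, MinQ a J → ∀ k ∈ J, ∀ l ∈ J, w k = w l) (φ : ℤ → ℚ) :
    ∀ (n : ℕ) (W : Finset κ), W.card = n → ∑ k ∈ W, a k = 0 →
      ∑ k ∈ W, a k * φ (w k) = 0 := by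
  intro n
  induction n using Nat.strong_induction_on with
  | _ n ih =>
    intro W hW h0
    rcases W.eq_empty_or_nonempty with rfl | hne
    · simp
    obtain ⟨J, hJ, hmin⟩ := Finset.exists_min_image
      (W.powerset.filter fun J => J.Nonempty ∧ ∑ k ∈ J, a k = 0) Finset.card
      ⟨W, by simp [hne, h0]⟩
    rw [Finset.mem_filter, Finset.mem_powerset] at hJ
    obtain ⟨hJW, hJne, hJ0⟩ := hJ
    have hJφ : ∑ k ∈ J, a k * φ (w k) = 0 := by
      rcases hJne.exists_eq_singleton_or_nontrivial with ⟨k, rfl⟩ | hJn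
      · rw [Finset.sum_singleton] at hJ0
        rw [Finset.sum_singleton, hJ0]
        simp
      · have hm : MinQ a J := ⟨hJn, hJ0, fun K hK hKne hKJ hK0 => by
          have := hmin K (by
            rw [Finset.mem_filter, Finset.mem_powerset]
            exact ⟨hK.trans hJW, hKne, hK0⟩)
          exact hKJ (Finset.eq_of_subset_of_card_le hK this)⟩
        obtain ⟨k0, hk0⟩ := hJne
        have e1 : ∀ k ∈ J, a k * φ (w k) = a k * φ (w k0) := fun k hk => by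
          rw [h J hm k hk k0 hk0]
        rw [Finset.sum_congr rfl e1, ← Finset.sum_mul, hJ0, zero_mul]
    have hd0 : ∑ k ∈ W \ J, a k = 0 := by
      have := Finset.sum_sdiff (f := a) hJW
      rw [hJ0, h0, add_zero] at this
      exact this
    have hlt : (W \ J).card < n := by
      rw [← hW]
      refine Finset.card_lt_card ?_
      refine Finset.sdiff_ssubset hJW hJne
    have h2 := ih _ hlt (W \ J) rfl hd0
    have h3 := Finset.sum_sdiff (f := fun k => a k * φ (w k)) hJW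
    rw [← h3, h2, hJφ, add_zero]

variable {κ : Type} [Fintype κ] {n r : ℕ}

/-- the terms -/
def tq (m : κ → Fin n → ℕ) (c : Fin r → κ → ℤ) (x : Fin n → ℚ)
    (q : Fin r) (k : κ) : ℚ := (c q k : ℚ) * ∏ i, x i ^ m k i

/-- the blocks of the point `x` see all directions -/
def Blk (m : κ → Fin n → ℕ) (c : Fin r → κ → ℤ) (x : Fin n → ℚ) : Prop :=
  ∀ a : Fin n → ℤ, a ≠ 0 → ∃ q J, MinQ (tq m c x q) J ∧ ∃ k ∈ J, ∃ l ∈ J,
      ∑ i, a i * ((m k i : ℤ) - m l i) ≠ 0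

theorem blk_or_part [DecidableEq κ] {m : κ → Fin n → ℕ} {c : Fin r → κ → ℤ} (h : FinStab m c)
    {x : Fin n → ℚ} (hx : x ∈ Zer ℚ m c) : Blk m c x ∨ ∃ (q : Fin r) (W : Finset κ),
      part (fun k => (c q k : ℚ)) W ∉ Sp c ∧ ev m (part (fun k => (c q k : ℚ)) W) x = 0 := by
  by_cases hb : Blk m c x
  · exact Or.inl hb
  right
  unfold Blk at hb
  push Not at hb
  obtain ⟨a, ha, hb⟩ := hb
  obtain ⟨q, w, hw⟩ := h.parts ha
  refine ⟨q, _, hw, ?_⟩
  have hz : ∑ k, tq m c x q k = 0 := by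
    have := hx.2 q
    unfold ev at this
    unfold tq
    simpa using this
  have h1 := minq_const (tq m c x q) (fun k => ∑ i, a i * (m k i : ℤ)) (fun J hJ k hk l hl => by
    have := hb q J hJ k hk l hl
    simp only [mul_sub, Finset.sum_sub_distrib] at this
    linarith) (fun w' => if w' = w then 1 else 0) _ Finset.univ rfl hz
  unfold ev part
  refine Eq.trans ?_ h1
  refine Finset.sum_congr rfl fun k _ => ?_
  unfold tq
  by_cases hk : ∑ i, a i * (m k i : ℤ) = w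
  · simp [hk]
  · simp [hk]

/-- the points -/
structure RPt (m : κ → Fin n → ℕ) (N : ℕ) (δ : ℝ) (Y : ℕ) (c : Fin r → κ → ℤ)
    (x : Fin n → ℚ) : Prop where
  zer : x ∈ Zer ℚ m c
  rep : ∃ (η : Fin n → ℤ) (b : Fin N → ℕ) (e : Fin n → Fin N → ℤ), (∀ i, |η i| = 1) ∧
    (∀ j, 1 ≤ b j ∧ b j ≤ Y) ∧ (∀ i j, ((e i j).natAbs : ℝ) ≤ (Y : ℝ) ^ δ) ∧
    ∀ i, x i = (η i : ℚ) * ∏ j, (b j : ℚ) ^ e i j

/-- the scaled terms of a point -/
theorem RPt.scaled {m : κ → Fin n → ℕ} {N : ℕ} {δ δ1 : ℝ} {Y : ℕ} {c : Fin r → κ → ℤ}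
    {x : Fin n → ℚ} (h : RPt m N δ Y c x) {M : ℕ} (hM : ∀ k, ∑ i, m k i ≤ M) (hδ : 0 < δ)
    (hδ1 : 3 * δ ≤ δ1) (hY : 1 ≤ Y) (hYl : (2 * (N : ℝ) * M) / δ ≤ (Y : ℝ) ^ δ) :
    ∃ (D : ℚ) (P : κ → ℤ), D ≠ 0 ∧ (∀ k, (P k : ℚ) = D * ∏ i, x i ^ m k i) ∧
      ∀ q J, MinQ (tq m c x q) J →
        GqPt J.card N 0 δ1 Y (fun j => c q (sg2 J j)) (fun j => P (sg2 J j)) := by
  classical
  obtain ⟨η, b, e, hη, hb, he, hx⟩ := h.rep
  have hY0 : (0 : ℝ) < (Y : ℝ) := by exact_mod_cast hY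
  have hY1r : (1 : ℝ) ≤ (Y : ℝ) := by exact_mod_cast hY
  have hY1 : (1 : ℤ) ≤ (Y : ℤ) := by exact_mod_cast hY
  have hb0 : ∀ j, (b j : ℚ) ≠ 0 := fun j => by
    have := (hb j).1
    exact_mod_cast (by omega : b j ≠ 0)
  obtain ⟨F, hF⟩ : ∃ F : ℕ, F = ⌊(Y : ℝ) ^ δ⌋₊ := ⟨_, rfl⟩
  have heF : ∀ i j, (e i j).natAbs ≤ F := fun i j => by
    rw [hF]
    exact Nat.le_floor (he i j)
  obtain ⟨w, hw⟩ : ∃ w : κ → Fin N → ℤ, ∀ k j, w k j = ∑ i, e i j * (m k i : ℤ) :=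
    ⟨_, fun _ _ => rfl⟩
  have hwF : ∀ k j, |w k j| ≤ ((M * F : ℕ) : ℤ) := by
    intro k j
    rw [hw]
    calc |∑ i, e i j * (m k i : ℤ)| ≤ ∑ i, |e i j * (m k i : ℤ)| :=
          Finset.abs_sum_le_sum_abs _ _
      _ ≤ ∑ i, (F : ℤ) * (m k i : ℤ) := by
          refine Finset.sum_le_sum fun i _ => ?_
          have h1 : |e i j| ≤ (F : ℤ) := by
            rw [Int.abs_eq_natAbs]
            exact_mod_cast heF i j
          rw [abs_mul, Nat.abs_cast]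
          exact mul_le_mul_of_nonneg_right h1 (by positivity)
      _ = (F : ℤ) * ((∑ i, m k i : ℕ) : ℤ) := by rw [← Finset.mul_sum]; push_cast; rfl
      _ ≤ (F : ℤ) * (M : ℤ) := by
          refine mul_le_mul_of_nonneg_left ?_ (by positivity)
          exact_mod_cast hM k
      _ = _ := by push_cast; ring
  have hge : ∀ k j, 0 ≤ ((M * F : ℕ) : ℤ) + w k j := fun k j => by
    have := (abs_le.1 (hwF k j)).1
    linarith
  choose u hu using fun k j => Int.eq_ofNat_of_zero_le (hge k j)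
  have huF : ∀ k j, u k j ≤ 2 * (M * F) := fun k j => by
    have h1 := (abs_le.1 (hwF k j)).2
    have h2 := hu k j
    have h3 : (u k j : ℤ) ≤ ((2 * (M * F) : ℕ) : ℤ) := by push_cast at h1 h2 ⊢; linarith
    exact_mod_cast h3
  obtain ⟨D, hD⟩ : ∃ D : ℚ, D = ∏ j, (b j : ℚ) ^ (M * F) := ⟨_, rfl⟩
  have hD0 : D ≠ 0 := by
    rw [hD]
    exact Finset.prod_ne_zero_iff.2 fun j _ => pow_ne_zero _ (hb0 j)
  obtain ⟨P, hP⟩ : ∃ P : κ → ℤ, ∀ k, P k = (∏ i, η i ^ m k i) * ∏ j, (b j : ℤ) ^ u k j :=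
    ⟨_, fun _ => rfl⟩
  have hPx : ∀ k, (P k : ℚ) = D * ∏ i, x i ^ m k i := by
    intro k
    rw [hP, hD]
    push_cast
    have e1 : ∏ i, x i ^ m k i = (∏ i, (η i : ℚ) ^ m k i) * ∏ j, (b j : ℚ) ^ w k j := by
      have e2 : ∀ j ∈ (Finset.univ : Finset (Fin N)), (b j : ℚ) ^ w k j =
          ∏ i, ((b j : ℚ) ^ e i j) ^ m k i := by
        intro j _
        rw [hw, ← prod_zpow_sum (hb0 j)]
        refine Finset.prod_congr rfl fun i _ => ?_
        rw [zpow_mul, zpow_natCast]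
      rw [Finset.prod_congr rfl e2, Finset.prod_comm, ← Finset.prod_mul_distrib]
      refine Finset.prod_congr rfl fun i _ => ?_
      rw [Finset.prod_pow, ← mul_pow, ← hx i]
    rw [e1]
    have e3 : ∏ j, (b j : ℚ) ^ u k j = (∏ j, (b j : ℚ) ^ (M * F)) * ∏ j, (b j : ℚ) ^ w k j := by
      rw [← Finset.prod_mul_distrib]
      refine Finset.prod_congr rfl fun j _ => ?_
      rw [← zpow_natCast (b j : ℚ) (u k j), ← hu k j, zpow_add₀ (hb0 j), zpow_natCast]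
    rw [e3]
    ring
  have hη1 : ∀ k, |∏ i, η i ^ m k i| = 1 := fun k => by
    rw [Finset.abs_prod]
    refine Finset.prod_eq_one fun i _ => ?_
    rw [abs_pow, hη, one_pow]
  have hPb : ∀ k, ((|P k| : ℤ) : ℝ) ≤ (Y : ℝ) ^ (2 * (M * F) * N) := by
    intro k
    have e1 : |P k| ≤ (Y : ℤ) ^ (2 * (M * F) * N) := by
      rw [hP, abs_mul, hη1, one_mul, Finset.abs_prod]
      calc ∏ j, |(b j : ℤ) ^ u k j| ≤ ∏ _j : Fin N, (Y : ℤ) ^ (2 * (M * F)) := by
            refine Finset.prod_le_prod (fun j _ => abs_nonneg _) fun j _ => ?_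
            rw [abs_pow, abs_of_nonneg (by positivity)]
            calc (b j : ℤ) ^ u k j ≤ (Y : ℤ) ^ u k j :=
                  pow_le_pow_left₀ (by positivity) (by exact_mod_cast (hb j).2) _
              _ ≤ _ := pow_le_pow_right₀ hY1 (huF k j)
        _ = _ := by rw [Finset.prod_const, Finset.card_univ, Fintype.card_fin, ← pow_mul]
    exact_mod_cast e1
  refine ⟨D, P, hD0, hPx, fun q J hJ => ?_⟩
  have hsc : ∀ k, ((c q k * P k : ℤ) : ℚ) = D * tq m c x q k := fun k => by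
    push_cast
    rw [hPx, tq]
    ring
  refine ⟨fun j => ?_, ?_, fun K h1 h2 => ?_, fun j => ?_, ?_⟩
  · have h3 : (P (sg2 J j) : ℚ) ≠ 0 := by
      rw [hPx]
      exact mul_ne_zero hD0 (Finset.prod_ne_zero_iff.2 fun i _ => pow_ne_zero _ (h.zer.1 i))
    exact_mod_cast h3
  · rw [sg2_sum J (fun k => c q k * P k)]
    have h3 : ((∑ k ∈ J, c q k * P k : ℤ) : ℚ) = 0 := by
      rw [Int.cast_sum, Finset.sum_congr rfl fun k _ => hsc k, ← Finset.mul_sum, hJ.2.1, mul_zero]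
    exact_mod_cast h3
  · have e1 : ∑ j ∈ K, c q (sg2 J j) * P (sg2 J j) = ∑ k ∈ K.image (sg2 J), c q k * P k := by
      rw [Finset.sum_image fun a _ b _ hab => sg2_inj J hab]
    rw [e1]
    intro h0
    have h3 : ((∑ k ∈ K.image (sg2 J), c q k * P k : ℤ) : ℚ) = 0 := by exact_mod_cast h0
    rw [Int.cast_sum, Finset.sum_congr rfl fun k _ => hsc k, ← Finset.mul_sum] at h3
    refine hJ.2.2 (K.image (sg2 J)) ?_ (h1.image _) ?_ ((mul_eq_zero.1 h3).resolve_left hD0)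
    · intro k hk
      obtain ⟨j, _, rfl⟩ := Finset.mem_image.1 hk
      exact sg2_mem J j
    · intro hKJ
      apply h2
      rw [Finset.eq_univ_iff_forall]
      intro j
      obtain ⟨j', hj', hjj⟩ := Finset.mem_image.1 (hKJ.ge (sg2_mem J j))
      rwa [← sg2_inj J hjj]
  · refine (hPb _).trans ?_
    have e2 : (Y : ℝ) ^ (2 * (M * F) * N) =
        Real.exp (((2 * (M * F) * N : ℕ) : ℝ) * Real.log Y) := by
      rw [Real.exp_nat_mul, Real.exp_log hY0]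
    rw [e2]
    apply Real.exp_le_exp.2
    have h3 : Real.log Y ≤ (Y : ℝ) ^ δ / δ := Real.log_le_rpow_div hY0.le hδ
    have h4 : (1 : ℝ) ≤ (Y : ℝ) ^ δ := Real.one_le_rpow hY1r hδ.le
    have h5 : (F : ℝ) ≤ (Y : ℝ) ^ δ := by
      rw [hF]
      exact Nat.floor_le (by positivity)
    have h6 : ((2 * (M * F) * N : ℕ) : ℝ) ≤ (2 * (N : ℝ) * M) * (Y : ℝ) ^ δ := by
      push_cast
      calc 2 * ((M : ℝ) * F) * N = (2 * N * M) * F := by ring
        _ ≤ _ := mul_le_mul_of_nonneg_left h5 (by positivity)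
    calc ((2 * (M * F) * N : ℕ) : ℝ) * Real.log Y ≤
          ((2 * (N : ℝ) * M) * (Y : ℝ) ^ δ) * ((Y : ℝ) ^ δ / δ) :=
          mul_le_mul h6 h3 (Real.log_nonneg hY1r) (by positivity)
      _ = ((2 * (N : ℝ) * M) / δ) * ((Y : ℝ) ^ δ * (Y : ℝ) ^ δ) := by ring
      _ ≤ (Y : ℝ) ^ δ * ((Y : ℝ) ^ δ * (Y : ℝ) ^ δ) :=
          mul_le_mul_of_nonneg_right hYl (by positivity)
      _ = (Y : ℝ) ^ (3 * δ) := by
          rw [← Real.rpow_add hY0, ← Real.rpow_add hY0]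
          congr 1
          ring
      _ ≤ _ := Real.rpow_le_rpow_of_exponent_le hY1r hδ1
  · refine ⟨fun j => ∏ i, η i ^ m (sg2 J j) i, b, fun j p => u (sg2 J j) p, hb, fun j => ?_,
      fun j => ?_⟩
    · rw [hη1, pow_zero]
    · rw [hP]

/-- **Near blocks imply close coordinates.** -/
theorem rat_near {m : κ → Fin n → ℕ} {C : ℕ} {Y : ℕ} {c : Fin r → κ → ℤ} {x x' : Fin n → ℚ}
    (hx : ∀ i, x i ≠ 0) (hx' : ∀ i, x' i ≠ 0) {D D' : ℚ} {P P' : κ → ℤ} (hD : D ≠ 0)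
    (hD' : D' ≠ 0) (hP : ∀ k, (P k : ℚ) = D * ∏ i, x i ^ m k i)
    (hP' : ∀ k, (P' k : ℚ) = D' * ∏ i, x' i ^ m k i)
    (hn : ∀ q J, MinQ (tq m c x q) J → NearP C Y (fun j : Fin J.card => P (sg2 J j))
      (fun j => P' (sg2 J j))) {V : Finset (Fin n → ℤ)}
    (hV : ∀ v ∈ V, ∃ q J, MinQ (tq m c x q) J ∧ ∃ k ∈ J, ∃ l ∈ J, ∀ i, v i = (m k i : ℤ) - m l i)
    {D0 : ℕ} {W : Fin n → (Fin n → ℤ) → ℤ} (hD0 : 0 < D0)
    (hW : ∀ i j, ∑ v ∈ V, W i v * v j = if i = j then (D0 : ℤ) else 0) {w : ℕ}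
    (hw : ∀ i, ∑ v ∈ V, (W i v).natAbs ≤ w) (i : Fin n) :
    HtLe ((Y + 2) ^ (C * w)) (x i / x' i) := by
  have key : ∀ v ∈ V, HtLe ((Y + 2) ^ C) (∏ i, (x i / x' i) ^ v i) := by
    intro v hv
    obtain ⟨q, J, hJ, k, hk, l, hl, hkl⟩ := hV v hv
    obtain ⟨j, rfl⟩ := sg2_surj J hk
    obtain ⟨j', rfl⟩ := sg2_surj J hl
    obtain ⟨R, R', R1, R2, R3, R4, R5⟩ := hn q J hJ j j'
    obtain ⟨k, hkd⟩ : ∃ k, k = sg2 J j := ⟨_, rfl⟩
    obtain ⟨l, hld⟩ : ∃ l, l = sg2 J j' := ⟨_, rfl⟩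
    beta_reduce at R5
    rw [← hkd, ← hld] at R5
    rw [← hkd] at hk
    rw [← hld] at hl
    rw [← hkd, ← hld] at hkl
    have hR0 : (R : ℚ) ≠ 0 := by exact_mod_cast R1
    refine HtLe.of_div (A := R') (B := R) R1 ?_ (by push_cast; exact R4) (by push_cast; exact R3)
    have e1 : ∏ i, (x i / x' i) ^ v i = ((∏ i, x i ^ m k i) * ∏ i, x' i ^ m l i) /
        ((∏ i, x' i ^ m k i) * ∏ i, x i ^ m l i) := by
      rw [← Finset.prod_mul_distrib, ← Finset.prod_mul_distrib, ← Finset.prod_div_distrib]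
      refine Finset.prod_congr rfl fun i _ => ?_
      have q1 := hx i
      have q2 := hx' i
      rw [hkl i, zpow_sub₀ (div_ne_zero q1 q2), zpow_natCast, zpow_natCast, div_pow, div_pow]
      field_simp
    have d1 : (∏ i, x' i ^ m k i) ≠ 0 := Finset.prod_ne_zero_iff.2 fun i _ =>
      pow_ne_zero _ (hx' i)
    have d2 : (∏ i, x i ^ m l i) ≠ 0 := Finset.prod_ne_zero_iff.2 fun i _ =>
      pow_ne_zero _ (hx i)
    rw [e1, div_eq_div_iff (mul_ne_zero d1 d2) hR0]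
    have R6 : ((R * (P k * P' l) : ℤ) : ℚ) = ((R' * (P' k * P l) : ℤ) : ℚ) := by
      exact_mod_cast R5
    push_cast at R6
    rw [hP, hP, hP', hP'] at R6
    have hne : D * D' ≠ 0 := mul_ne_zero hD hD'
    apply mul_left_cancel₀ hne
    linear_combination R6
  have := coords_small hD0 hW (fun i => div_ne_zero (hx i) (hx' i)) key i
  refine this.mono ?_
  rw [← pow_mul]
  refine Nat.pow_le_pow_right (by omega) (Nat.mul_le_mul_left _ (hw i))

end Pool.Agent.U583.TV
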