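import Mathlib
import Pool.Agent.U583.TV.Blk

/-!
# Rational points of tori with few prime factors: the classes
-/

set_option autoImplicit false

namespace Pool.Agent.U583.TV

open Pool.Agent.Y902.GN

/-- the ratios of the coordinates have height at most `B` -/
def CloseQ {n : ℕ} (B : ℕ) (x z : Fin n → ℚ) : Prop := ∀ i, HtLe B (x i / z i)

theorem CloseQ.refl {n B : ℕ} (hB : 1 ≤ B) (x : Fin n → ℚ) : CloseQ B x x := fun i => by
  by_cases h : x i = 0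
  · rw [h, div_zero]
    exact HtLe.zero.mono hB
  · rw [div_self h]
    exact HtLe.one.mono hB

theorem CloseQ.symm {n B : ℕ} {x z : Fin n → ℚ} (h : CloseQ B x z) : CloseQ B z x := fun i => by
  rw [← inv_div]
  by_cases h0 : x i / z i = 0
  · rw [h0, inv_zero]
    exact HtLe.zero.mono (h i).one_le
  · exact (h i).inv h0

variable {κ : Type} [Fintype κ] [DecidableEq κ] {n : ℕ}

theorem class_count (m : κ → Fin n → ℕ) (r N : ℕ) (ε : ℝ) (hε : 0 < ε) :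
    ∃ (C : ℕ) (δ : ℝ) (Y1 : ℕ), 0 < δ ∧ ∀ (Y : ℕ), 2 ≤ Y → Y1 ≤ Y → ∀ (c : Fin r → κ → ℤ),
    (∀ q k, ((|c q k| : ℤ) : ℝ) ≤ Real.exp ((Y : ℝ) ^ δ)) →
    ∀ (T : Finset (Fin n → ℚ)), (∀ x ∈ T, RPt m N δ Y c x ∧ Blk m c x) →
      (∀ x ∈ T, ∀ x' ∈ T, x ≠ x' → ¬ CloseQ ((Y + 2) ^ C) x x') → (T.card : ℝ) ≤ (Y : ℝ) ^ ε := by
  classical
  obtain ⟨p0, hp0⟩ : ∃ p0 : ℕ, p0 = Fintype.card (Fin r × Finset κ) := ⟨_, rfl⟩
  obtain ⟨ε', hε'⟩ : ∃ ε' : ℝ, ε' = ε / (2 * (p0 + 1)) := ⟨_, rfl⟩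
  have hε0 : 0 < ε' := by rw [hε']; positivity
  have hgq := fun s : ℕ => gq s N 0 ε' hε0
  choose C0 δ' hδ' H using hgq
  have hne : (Finset.range (Fintype.card κ + 1)).Nonempty := ⟨0, Finset.mem_range.2 (by omega)⟩
  obtain ⟨δ1, hδ1, hδ1'⟩ : ∃ δ1 : ℝ, 0 < δ1 ∧
      ∀ s ∈ Finset.range (Fintype.card κ + 1), δ1 ≤ δ' s :=
    ⟨(Finset.range (Fintype.card κ + 1)).inf' hne δ', (Finset.lt_inf'_iff hne).2 fun s _ => hδ' s,
      fun s hs => Finset.inf'_le _ hs⟩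
  obtain ⟨C1, hC1⟩ : ∃ C1 : ℕ, ∀ s ∈ Finset.range (Fintype.card κ + 1), C0 s ≤ C1 :=
    ⟨∑ s ∈ Finset.range (Fintype.card κ + 1), C0 s, fun s hs =>
      Finset.single_le_sum (f := C0) (fun _ _ => Nat.zero_le _) hs⟩
  have hcard : ∀ J : Finset κ, J.card ∈ Finset.range (Fintype.card κ + 1) := fun J => by
    have := Finset.card_le_univ J
    exact Finset.mem_range.2 (by omega)
  obtain ⟨δ, hδ, hδa⟩ : ∃ δ : ℝ, 0 < δ ∧ 3 * δ ≤ δ1 := ⟨δ1 / 3, by positivity, by linarith⟩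
  have hδb : δ ≤ δ1 := by linarith
  obtain ⟨M, hM⟩ : ∃ M : ℕ, ∀ k, ∑ i, m k i ≤ M := ⟨∑ k, ∑ i, m k i, fun k =>
    Finset.single_le_sum (f := fun k => ∑ i, m k i) (fun _ _ => Nat.zero_le _)
      (Finset.mem_univ k)⟩
  obtain ⟨U, hU⟩ : ∃ U : Finset (Fin n → ℤ), U = (Finset.univ : Finset (κ × κ)).image
      fun p i => (m p.1 i : ℤ) - m p.2 i := ⟨_, rfl⟩
  obtain ⟨w, hw⟩ := span_const U
  obtain ⟨Y1, hY1⟩ : ∃ Y1 : ℕ, Y1 = ⌈((2 * (N : ℝ) * M) / δ) ^ (1 / δ)⌉₊ +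
      ⌈((2 : ℝ) ^ p0) ^ (2 / ε)⌉₊ := ⟨_, rfl⟩
  refine ⟨(2 * C1) * w, δ, Y1, hδ, fun Y hY hYY1 c hc T hT hne' => ?_⟩
  have hYr : (1 : ℝ) ≤ (Y : ℝ) := by exact_mod_cast (by omega : 1 ≤ Y)
  have hY0 : (0 : ℝ) < (Y : ℝ) := by linarith
  have hYl : (2 * (N : ℝ) * M) / δ ≤ (Y : ℝ) ^ δ := by
    have h1 : ((2 * (N : ℝ) * M) / δ) ^ (1 / δ) ≤ (Y : ℝ) := by
      refine (Nat.le_ceil _).trans ?_
      exact_mod_cast (by omega : ⌈((2 * (N : ℝ) * M) / δ) ^ (1 / δ)⌉₊ ≤ Y)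
    have h2 := Real.rpow_le_rpow (by positivity) h1 hδ.le
    rwa [← Real.rpow_mul (by positivity), one_div_mul_cancel hδ.ne', Real.rpow_one] at h2
  have h2d : (2 : ℝ) ^ p0 ≤ (Y : ℝ) ^ (ε / 2) := by
    have h1 : ((2 : ℝ) ^ p0) ^ (2 / ε) ≤ (Y : ℝ) := by
      refine (Nat.le_ceil _).trans ?_
      exact_mod_cast (by omega : ⌈((2 : ℝ) ^ p0) ^ (2 / ε)⌉₊ ≤ Y)
    have h2 := Real.rpow_le_rpow (by positivity) h1 (show (0 : ℝ) ≤ ε / 2 by positivity)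
    rwa [← Real.rpow_mul (by positivity), show 2 / ε * (ε / 2) = 1 by field_simp,
      Real.rpow_one] at h2
  -- the classes of the blocks
  have hTJ : ∀ p : Fin r × Finset κ, ∃ TJ : Finset (Fin p.2.card → ℤ),
      (∀ a ∈ TJ, ∀ i, a i ≠ 0) ∧ (TJ.card : ℝ) ≤ (Y : ℝ) ^ ε' ∧
      ((∀ k ∈ p.2, c p.1 k ≠ 0) →
        ∀ a, GqPt p.2.card N 0 δ1 Y (fun j => c p.1 (sg2 p.2 j)) a → ∃ b ∈ TJ, NearP C1 Y a b) := by
    intro p
    by_cases hp : ∀ k ∈ p.2, c p.1 k ≠ 0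
    · obtain ⟨TJ, h1, h2, h3⟩ := max_sep {a : Fin p.2.card → ℤ |
        GqPt p.2.card N 0 δ1 Y (fun j => c p.1 (sg2 p.2 j)) a}
        (NearP (C0 p.2.card) Y) (NearP.refl _ _) (fun _ _ => NearP.symm) ((Y : ℝ) ^ ε')
        (fun T h1 h2 => H p.2.card Y (by omega) _ (fun j => ⟨hp _ (sg2_mem p.2 j),
          (hc p.1 _).trans (Real.exp_le_exp.2 (Real.rpow_le_rpow_of_exponent_le hYr
            (hδb.trans (hδ1' _ (hcard p.2)))))⟩) T (fun a ha => by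
          have h3 := h1 a ha
          refine ⟨h3.nz, h3.sum, h3.nvs, fun i => (h3.hi i).trans (Real.exp_le_exp.2
            (Real.rpow_le_rpow_of_exponent_le hYr (hδ1' _ (hcard p.2)))), h3.rep⟩) h2)
      exact ⟨TJ, fun a ha => (h1 a ha).nz, h2, fun _ a ha => by
        obtain ⟨b, hb, hab⟩ := h3 a ha
        exact ⟨b, hb, hab.mono (hC1 _ (hcard p.2))⟩⟩
    · refine ⟨∅, by simp, ?_, fun h => absurd h hp⟩
      simp only [Finset.card_empty, Nat.cast_zero]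
      positivity
  choose TJ hTJ1 hTJ2 hTJ3 using hTJ
  have hsc := fun (x : Fin n → ℚ) (hx : x ∈ T) => (hT x hx).1.scaled hM hδ hδa (by omega) hYl
  choose! D P hD hP hG using hsc
  have hcode : ∀ (x : Fin n → ℚ) (p : Fin r × Finset κ), ∃ τ : Option (Fin p.2.card → ℤ),
      (x ∈ T → τ ∈ insert none ((TJ p).image some)) ∧
      (x ∈ T → MinQ (tq m c x p.1) p.2 → ∃ b ∈ TJ p, τ = some b ∧
        NearP C1 Y (fun j : Fin p.2.card => P x (sg2 p.2 j)) b) ∧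
      (¬ MinQ (tq m c x p.1) p.2 → τ = none) := by
    intro x p
    by_cases hm : x ∈ T ∧ MinQ (tq m c x p.1) p.2
    · obtain ⟨b, hb, hab⟩ := hTJ3 p (fun k hk h0 => hm.2.nz hk (by
        unfold tq
        rw [h0, Int.cast_zero, zero_mul])) _ (hG x hm.1 p.1 p.2 hm.2)
      refine ⟨some b, fun _ => Finset.mem_insert_of_mem (Finset.mem_image_of_mem _ hb),
        fun _ _ => ⟨b, hb, rfl, hab⟩, fun h => absurd hm.2 h⟩
    · refine ⟨none, fun _ => Finset.mem_insert_self _ _, fun h1 h2 => absurd ⟨h1, h2⟩ hm,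
        fun _ => rfl⟩
  choose code hcode1 hcode2 hcode3 using hcode
  have hinj : Set.InjOn code (T : Set (Fin n → ℚ)) := by
    intro x hx x' hx' hxx
    have hx := Finset.mem_coe.1 hx
    have hx' := Finset.mem_coe.1 hx'
    by_contra hne2
    have h1 := hT x hx
    have h2 := hT x' hx'
    have htype : ∀ q J, MinQ (tq m c x q) J → MinQ (tq m c x' q) J := by
      intro q J hJ
      by_contra hJ'
      obtain ⟨b, _, hb, _⟩ := hcode2 x (q, J) hx hJ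
      have hb' := hcode3 x' (q, J) hJ'
      rw [hxx, hb'] at hb
      exact absurd hb (by simp)
    obtain ⟨V, hV⟩ : ∃ V : Finset (Fin n → ℤ), V = U.filter fun v => ∃ q J,
        MinQ (tq m c x q) J ∧ ∃ k ∈ J, ∃ l ∈ J, ∀ i, v i = (m k i : ℤ) - m l i := ⟨_, rfl⟩
    obtain ⟨D0, W, hD0, hW, hWw⟩ := hw V (by rw [hV]; exact Finset.filter_subset _ _) (by
      intro a ha
      obtain ⟨q, J, hJ, k, hk, l, hl, hkl⟩ := h1.2 a ha
      refine ⟨fun i => (m k i : ℤ) - m l i, ?_, hkl⟩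
      rw [hV, Finset.mem_filter, hU]
      exact ⟨Finset.mem_image.2 ⟨(k, l), Finset.mem_univ _, rfl⟩, q, J, hJ, k, hk, l, hl,
        fun i => rfl⟩)
    refine hne' x hx x' hx' hne2 ?_
    intro i
    exact rat_near (C := 2 * C1) h1.1.zer.1 h2.1.zer.1 (hD x hx) (hD x' hx') (hP x hx) (hP x' hx')
      (fun q J hJ => by
      obtain ⟨b, hbT, hb, hn⟩ := hcode2 x (q, J) hx hJ
      obtain ⟨b', hbT', hb', hn'⟩ := hcode2 x' (q, J) hx' (htype q J hJ)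
      have hbb : b = b' := by
        rw [hxx, hb'] at hb
        exact (Option.some.inj hb).symm
      rw [← hbb] at hn'
      exact hn.join (hTJ1 _ b hbT) hn') (V := V) (fun v hv => by
        rw [hV, Finset.mem_filter] at hv
        exact hv.2) hD0 hW hWw i
  have hle : T.card ≤ (Fintype.piFinset fun p : Fin r × Finset κ =>
      insert none ((TJ p).image some)).card := by
    rw [← Finset.card_image_of_injOn hinj]
    refine Finset.card_le_card fun g hg => ?_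
    obtain ⟨x, hx, rfl⟩ := Finset.mem_image.1 hg
    exact Fintype.mem_piFinset.2 fun p => hcode1 x p hx
  rw [Fintype.card_piFinset] at hle
  have hone : (1 : ℝ) ≤ (Y : ℝ) ^ ε' := Real.one_le_rpow hYr hε0.le
  calc (T.card : ℝ) ≤ ((∏ p : Fin r × Finset κ, (insert none ((TJ p).image some)).card : ℕ) : ℝ) := by
        exact_mod_cast hle
    _ = ∏ p : Fin r × Finset κ, (((insert none ((TJ p).image some)).card : ℕ) : ℝ) := by
        push_cast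
        rfl
    _ ≤ ∏ _p : Fin r × Finset κ, 2 * (Y : ℝ) ^ ε' := by
        refine Finset.prod_le_prod (fun p _ => Nat.cast_nonneg _) fun p _ => ?_
        have e1 : (insert none ((TJ p).image some)).card ≤ (TJ p).card + 1 :=
          (Finset.card_insert_le _ _).trans (Nat.add_le_add_right Finset.card_image_le _)
        have e2 : (((insert none ((TJ p).image some)).card : ℕ) : ℝ) ≤ ((TJ p).card : ℝ) + 1 := by
          exact_mod_cast e1
        have e3 := hTJ2 p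
        linarith
    _ = (2 * (Y : ℝ) ^ ε') ^ p0 := by
        rw [Finset.prod_const, Finset.card_univ, hp0]
    _ = 2 ^ p0 * ((Y : ℝ) ^ ε') ^ p0 := mul_pow _ _ _
    _ ≤ (Y : ℝ) ^ (ε / 2) * (Y : ℝ) ^ (ε / 2) := by
        refine mul_le_mul h2d ?_ (by positivity) (by positivity)
        rw [← Real.rpow_natCast, ← Real.rpow_mul hY0.le]
        refine Real.rpow_le_rpow_of_exponent_le hYr ?_
        rw [hε']
        rw [div_mul_eq_mul_div, div_le_div_iff₀ (by positivity) (by positivity)]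
        have : (0 : ℝ) ≤ (p0 : ℝ) := Nat.cast_nonneg _
        nlinarith
    _ = (Y : ℝ) ^ ε := by
        rw [← Real.rpow_add hY0]
        congr 1
        ring

/-- **Few classes of rational points.** -/
theorem reps (m : κ → Fin n → ℕ) (r N : ℕ) (ε : ℝ) (hε : 0 < ε) :
    ∃ (C : ℕ) (δ : ℝ) (Y1 : ℕ), 0 < δ ∧ ∀ (Y : ℕ), 2 ≤ Y → Y1 ≤ Y → ∀ (c : Fin r → κ → ℤ),
    (∀ q k, ((|c q k| : ℤ) : ℝ) ≤ Real.exp ((Y : ℝ) ^ δ)) →
    ∃ L : Finset (Fin n → ℚ), (∀ z ∈ L, RPt m N δ Y c z) ∧ (L.card : ℝ) ≤ (Y : ℝ) ^ ε ∧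
      ∀ x, RPt m N δ Y c x → Blk m c x → ∃ z ∈ L, CloseQ ((Y + 2) ^ C) x z := by
  obtain ⟨C, δ, Y1, hδ, H⟩ := class_count m r N ε hε
  refine ⟨C, δ, Y1, hδ, fun Y hY hYY1 c hc => ?_⟩
  obtain ⟨L, h1, h2, h3⟩ := max_sep {x : Fin n → ℚ | RPt m N δ Y c x ∧ Blk m c x}
    (CloseQ ((Y + 2) ^ C)) (CloseQ.refl (Nat.one_le_pow _ _ (by omega)))
    (fun _ _ => CloseQ.symm) ((Y : ℝ) ^ ε) (fun T hT hT' => H Y hY hYY1 c hc T hT hT')
  exact ⟨L, fun z hz => (h1 z hz).1, h2, fun x hx hb => h3 x ⟨hx, hb⟩⟩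

end Pool.Agent.U583.TV
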