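import Mathlib
import Pool.Agent.U583.TV.Lin
import Pool.Agent.U583.TV.Reps

/-!
# The points of a class satisfy a new equation, or they are small
-/

set_option autoImplicit false

namespace Pool.Agent.U583.TV

open Pool.Agent.Y902.GN

theorem uc_mono {a b : ℕ} (h : a ≤ b) : uc a ≤ uc b :=
  Nat.mul_le_mul (by omega) (Nat.factorial_le h)

theorem htLe_int {B : ℕ} {a : ℤ} (hB : 1 ≤ B) (h : |a| ≤ (B : ℤ)) : HtLe B (a : ℚ) :=
  ⟨by simpa using h, by simpa using hB⟩

variable {κ : Type} [Fintype κ] [DecidableEq κ] {n r : ℕ}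

theorem circ_small_aux {d : ℕ} (f : Fin d → κ → ℚ) (hf : LinearIndependent ℚ f) {B : ℕ}
    (hB : 2 ≤ B) (hfB : ∀ i k, HtLe B (f i k)) {v : κ → ℚ}
    (hv : IsCirc (Submodule.span ℚ (Set.range f)) v) {j : κ} (hj : v j ≠ 0) (k : κ) :
    HtLe (B ^ ((2 * uc d + 2) * d)) (v k / v j) := by
  obtain ⟨l, hl⟩ := (Submodule.mem_span_range_iff_exists_fun ℚ).1 hv.1
  have hlk : ∀ k, ∑ i, f i k * (l i / v j) = v k / v j := by
    intro k
    have h1 := congrFun hl k
    rw [Finset.sum_apply] at h1
    rw [← h1, Finset.sum_div]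
    refine Finset.sum_congr rfl fun i _ => ?_
    simp only [Pi.smul_apply, smul_eq_mul]
    ring
  have hsm : ∀ i, HtLe (B ^ (2 * uc d)) (l i / v j) := by
    intro i
    have h1 := uniq_small hB
      ({e : (Fin d → ℚ) × ℚ | ∃ k, v k = 0 ∧ e = (fun i => f i k, 0)} ∪ {(fun i => f i j, 1)})
      (fun e he => by
        rcases he with ⟨k, _, rfl⟩ | rfl
        · exact ⟨fun i => hfB i k, HtLe.zero.mono (by omega)⟩
        · exact ⟨fun i => hfB i j, HtLe.one.mono (by omega)⟩)
      (fun i => l i / v j) (fun e he => by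
        rcases he with ⟨k, hk, rfl⟩ | rfl
        · simp only
          rw [hlk, hk, zero_div]
        · simp only
          rw [hlk, div_self hj]) (fun l' hl' => by
        obtain ⟨u, hu⟩ : ∃ u : κ → ℚ, u = ∑ i, l' i • f i := ⟨_, rfl⟩
        have huk : ∀ k, u k = ∑ i, f i k * l' i := by
          intro k
          rw [hu, Finset.sum_apply]
          refine Finset.sum_congr rfl fun i _ => ?_
          simp only [Pi.smul_apply, smul_eq_mul]
          ring
        have h2 : u ∈ Submodule.span ℚ (Set.range f) :=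
          (Submodule.mem_span_range_iff_exists_fun ℚ).2 ⟨l', hu.symm⟩
        have h3 := hv.unique h2 (fun k hk => by
          rw [huk]
          exact hl' _ (Or.inl ⟨k, hk, rfl⟩)) hj
        have h4 : u j = 1 := by
          rw [huk]
          exact hl' _ (Or.inr rfl)
        rw [h4] at h3
        have h5 : ∑ i, (l' i - l i / v j) • f i = 0 := by
          have h6 : ∑ i, (l i / v j) • f i = (1 / v j) • v := by
            rw [← hl, Finset.smul_sum]
            refine Finset.sum_congr rfl fun i _ => ?_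
            rw [smul_smul]
            congr 1
            ring
          simp only [sub_smul, Finset.sum_sub_distrib]
          rw [← hu, h6, h3, sub_self]
        funext i
        exact sub_eq_zero.1 (Fintype.linearIndependent_iff.1 hf _ h5 i)) i
    rw [Fintype.card_fin] at h1
    exact h1
  rw [← hlk]
  have h1 := htLe_fsum' (Finset.univ : Finset (Fin d)) (fun i => f i k * (l i / v j))
    (k := 2 * uc d + 1) hB (fun i _ => by
      have := (hfB i k).mul (hsm i)
      rwa [← pow_succ'] at this)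
  rw [Finset.card_univ, Fintype.card_fin] at h1
  exact h1

/-- quotients of entries of vectors of minimal support are small -/
theorem circ_small {c : Fin r → κ → ℤ} {B : ℕ} (hB : 2 ≤ B) (hc : ∀ q k, |c q k| ≤ (B : ℤ))
    {v : κ → ℚ} (hv : IsCirc (Sp c) v) {j : κ} (hj : v j ≠ 0) (k : κ) :
    HtLe (B ^ ((2 * uc (Fintype.card κ) + 2) * Fintype.card κ)) (v k / v j) := by
  obtain ⟨f, hf1, hf2, hf3⟩ := Submodule.exists_fun_fin_finrank_span_eq ℚ
    (Set.range fun q k => (c q k : ℚ))
  have hdκ : Module.finrank ℚ (Submodule.span ℚ (Set.range fun q k => (c q k : ℚ))) ≤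
      Fintype.card κ := by
    rw [← Module.finrank_fintype_fun_eq_card (R := ℚ) (η := κ)]
    exact Submodule.finrank_le _
  have h1 := circ_small_aux f hf3 hB (fun i k => by
    obtain ⟨q, hq⟩ := hf1 i
    rw [← hq]
    exact htLe_int (by omega) (hc q k)) (v := v) (by
      rw [hf2]
      exact hv) hj k
  refine h1.mono (Nat.pow_le_pow_right (by omega) ?_)
  have := uc_mono hdκ
  exact Nat.mul_le_mul (by omega) hdκ

/-- the products of the coordinates with small exponents -/
theorem pow_prod_small {B : ℕ} {x : Fin n → ℚ} (h : ∀ i, HtLe B (x i)) (hB : 1 ≤ B)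
    (e : Fin n → ℕ) {M : ℕ} (hM : ∑ i, e i ≤ M) : HtLe (B ^ M) (∏ i, x i ^ e i) := by
  have h1 := HtLe.prod Finset.univ (fun i => x i ^ e i) (fun i => B ^ e i)
    fun i _ => (h i).pow (e i)
  rw [Finset.prod_pow_eq_pow_sum] at h1
  exact h1.mono (Nat.pow_le_pow_right hB hM)

/-- **The points of a class satisfy a new equation, or they are small.** -/
theorem class_dich (m : κ → Fin n → ℕ) : ∃ K : ℕ, ∀ (r : ℕ) (c : Fin r → κ → ℤ), FinStab m c →
    ∀ B H : ℕ, 2 ≤ B → 2 ≤ H → (∀ q k, |c q k| ≤ (H : ℤ)) → ∀ (z : Fin n → ℚ), (∀ i, z i ≠ 0) →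
    ∀ S : Set (Fin n → ℚ), S ⊆ Zer ℚ m c → (∀ x ∈ S, CloseQ B x z) →
    (∃ G, G ∉ Sp c ∧ ∀ x ∈ S, ev m G x = 0) ∨ ∀ x ∈ S, ∀ i, HtLe ((B * H) ^ K) (x i) := by
  classical
  obtain ⟨M, hM⟩ : ∃ M : ℕ, ∀ k, ∑ i, m k i ≤ M := ⟨∑ k, ∑ i, m k i, fun k =>
    Finset.single_le_sum (f := fun k => ∑ i, m k i) (fun _ _ => Nat.zero_le _)
      (Finset.mem_univ k)⟩
  obtain ⟨U, hU⟩ : ∃ U : Finset (Fin n → ℤ), U = (Finset.univ : Finset (κ × κ)).image
      fun p i => (m p.1 i : ℤ) - m p.2 i := ⟨_, rfl⟩
  obtain ⟨w, hw⟩ := span_const U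
  obtain ⟨K1, hK1⟩ : ∃ K1 : ℕ, K1 = (M + 1) * (2 * uc (Fintype.card κ)) +
      (2 * uc (Fintype.card κ) + 2) * Fintype.card κ := ⟨_, rfl⟩
  refine ⟨K1 * w + 1, fun r c hst B H hB hH hc z hz S hS hcl => ?_⟩
  have hBH : 1 ≤ B * H := Nat.mul_pos (by omega) (by omega)
  by_cases hb : ∃ b : κ → ℚ, (∀ x ∈ S, ev m b (fun i => x i / z i) = 0) ∧
      (fun k => b k / ∏ i, z i ^ m k i) ∉ Sp c
  · obtain ⟨b, hb1, hb2⟩ := hb
    refine Or.inl ⟨_, hb2, fun x hx => ?_⟩
    rw [← hb1 x hx]
    unfold ev
    refine Finset.sum_congr rfl fun k _ => ?_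
    simp only [Rat.cast_id, div_pow, Finset.prod_div_distrib]
    ring
  push Not at hb
  right
  have hzm : ∀ k, ∏ i, z i ^ m k i ≠ 0 := fun k => Finset.prod_ne_zero_iff.2 fun i _ =>
    pow_ne_zero _ (hz i)
  -- the quotients of the monomials in the support of a vector of minimal support are small
  have key : ∀ v, IsCirc (Sp c) v → ∀ j k, v j ≠ 0 → v k ≠ 0 →
      HtLe ((B * H) ^ K1) (∏ i, z i ^ ((m k i : ℤ) - m j i)) := by
    intro v hv j k hj hk
    have h1 := uniq_small (B := B ^ (M + 1)) (hB.trans (Nat.le_self_pow (by omega) _))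
      ({e : (κ → ℚ) × ℚ | ∃ x ∈ S, e = (fun l => ∏ i, (x i / z i) ^ m l i, 0)} ∪
        ({e : (κ → ℚ) × ℚ | ∃ l, v l = 0 ∧ e = (Pi.single l 1, 0)} ∪ {(Pi.single j 1, 1)}))
      (fun e he => by
        have hp : 1 ≤ B ^ (M + 1) := Nat.one_le_pow _ _ (by omega)
        rcases he with ⟨x, hx, rfl⟩ | ⟨l, _, rfl⟩ | rfl
        · exact ⟨fun l => pow_prod_small (hcl x hx) (by omega) (m l) ((hM l).trans (by omega)),
            HtLe.zero.mono hp⟩
        · refine ⟨fun i => ?_, HtLe.zero.mono hp⟩
          show HtLe (B ^ (M + 1)) ((Pi.single l 1 : κ → ℚ) i)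
          rw [Pi.single_apply]
          split_ifs
          · exact HtLe.one.mono hp
          · exact HtLe.zero.mono hp
        · refine ⟨fun i => ?_, HtLe.one.mono hp⟩
          show HtLe (B ^ (M + 1)) ((Pi.single j 1 : κ → ℚ) i)
          rw [Pi.single_apply]
          split_ifs
          · exact HtLe.one.mono hp
          · exact HtLe.zero.mono hp)
      (fun l => (∏ i, z i ^ m l i) * v l / ((∏ i, z i ^ m j i) * v j)) (fun e he => by
        rcases he with ⟨x, hx, rfl⟩ | ⟨l, hl, rfl⟩ | rfl
        · have h2 := Zer.ev_eq (hS hx) hv.1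
          unfold ev at h2
          simp only
          have h3 : ∑ l, (∏ i, (x i / z i) ^ m l i) * ((∏ i, z i ^ m l i) * v l /
              ((∏ i, z i ^ m j i) * v j)) = (∑ l, ((v l : ℚ) : ℚ) * ∏ i, x i ^ m l i) /
              ((∏ i, z i ^ m j i) * v j) := by
            rw [Finset.sum_div]
            refine Finset.sum_congr rfl fun l _ => ?_
            simp only [div_pow, Finset.prod_div_distrib]
            have := hzm l
            field_simp
          rw [h3]
          simp only [Rat.cast_id] at h2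
          rw [h2, zero_div]
        · simp only
          rw [Finset.sum_eq_single l]
          · rw [hl]
            simp
          · intro i _ hi
            rw [Pi.single_eq_of_ne hi, zero_mul]
          · intro h
            exact absurd (Finset.mem_univ l) h
        · simp only
          rw [Finset.sum_eq_single j]
          · rw [Pi.single_eq_same, one_mul, div_self (mul_ne_zero (hzm j) hj)]
          · intro i _ hi
            rw [Pi.single_eq_of_ne hi, zero_mul]
          · intro h
            exact absurd (Finset.mem_univ j) h)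
      (fun b' hb' => by
        have hsing : ∀ l, ∑ i, (Pi.single l 1 : κ → ℚ) i * b' i = b' l := by
          intro l
          rw [Finset.sum_eq_single l]
          · rw [Pi.single_eq_same, one_mul]
          · intro i _ hi
            rw [Pi.single_eq_of_ne hi, zero_mul]
          · intro h
            exact absurd (Finset.mem_univ l) h
        have h2 := hb b' (fun x hx => by
          have h3 : ∑ l, (∏ i, (x i / z i) ^ m l i) * b' l = 0 := hb' _ (Or.inl ⟨x, hx, rfl⟩)
          unfold ev
          refine Eq.trans ?_ h3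
          refine Finset.sum_congr rfl fun l _ => ?_
          simp only [Rat.cast_id]
          ring)
        have h4 : b' j = 1 := by
          have := hb' _ (Or.inr (Or.inr rfl))
          rwa [hsing] at this
        have h3 := hv.unique h2 (fun l hl => by
          have := hb' _ (Or.inr (Or.inl ⟨l, hl, rfl⟩))
          rw [hsing] at this
          simp [this]) hj
        funext l
        have h5 := congrFun h3 l
        simp only [Pi.smul_apply, smul_eq_mul, h4] at h5
        have := hzm l
        have := hzm j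
        field_simp at h5 ⊢
        linear_combination h5) k
    have h2 := circ_small hH hc hv hj k
    have hvk : v k / v j ≠ 0 := div_ne_zero hk hj
    have h1' := h1.mono (show _ ≤ (B * H) ^ ((M + 1) * (2 * uc (Fintype.card κ))) by
      rw [← pow_mul]
      exact Nat.pow_le_pow_left (Nat.le_mul_of_pos_right _ (by omega)) _)
    have h2' := (h2.inv hvk).mono (show _ ≤
        (B * H) ^ ((2 * uc (Fintype.card κ) + 2) * Fintype.card κ) from
      Nat.pow_le_pow_left (Nat.le_mul_of_pos_left _ (by omega)) _)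
    have h3 := h1'.mul h2'
    rw [← pow_add, ← hK1] at h3
    have h4 : ∏ i, z i ^ ((m k i : ℤ) - m j i) = (∏ i, z i ^ m k i) * v k /
        ((∏ i, z i ^ m j i) * v j) * (v k / v j)⁻¹ := by
      have h5 : ∏ i, z i ^ ((m k i : ℤ) - m j i) = (∏ i, z i ^ m k i) / ∏ i, z i ^ m j i := by
        rw [← Finset.prod_div_distrib]
        refine Finset.prod_congr rfl fun i _ => ?_
        rw [zpow_sub₀ (hz i), zpow_natCast, zpow_natCast]
      rw [h5]
      have := hzm j
      field_simp
    rw [h4]
    exact h3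
  obtain ⟨V, hV⟩ : ∃ V : Finset (Fin n → ℤ), V = U.filter fun u =>
      HtLe ((B * H) ^ K1) (∏ i, z i ^ u i) := ⟨_, rfl⟩
  obtain ⟨D0, W, hD0, hW, hWw⟩ := hw V (by rw [hV]; exact Finset.filter_subset _ _) (by
    intro a ha
    obtain ⟨v, hv, j, k, hj, hk, hjk⟩ := hst.circ ha
    refine ⟨fun i => (m j i : ℤ) - m k i, ?_, hjk⟩
    rw [hV, Finset.mem_filter, hU]
    exact ⟨Finset.mem_image.2 ⟨(j, k), Finset.mem_univ _, rfl⟩, key v hv k j hk hj⟩)
  intro x hx i
  have h1 := coords_small hD0 hW hz (fun v hv => by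
    rw [hV, Finset.mem_filter] at hv
    exact hv.2) i
  have h2 := ((hcl x hx i).mono (Nat.le_mul_of_pos_right B (show 0 < H by omega))).mul h1
  have h3 : x i / z i * z i = x i := div_mul_cancel₀ _ (hz i)
  rw [h3, ← pow_mul, ← pow_succ'] at h2
  refine h2.mono (Nat.pow_le_pow_right hBH ?_)
  have := Nat.mul_le_mul_left K1 (hWw i)
  omega

end Pool.Agent.U583.TV
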