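import Mathlib
import Pool.Agent.U583.TV.Cls

/-!
# The theorem for a fixed bound of the generators
-/

set_option autoImplicit false

namespace Pool.Agent.U583.TV

open Pool.Agent.Y902.GN

variable {κ : Type} [Fintype κ] [DecidableEq κ] {n : ℕ}

theorem fixedY (m : κ → Fin n → ℕ) (r N : ℕ) (ε : ℝ) (hε : 0 < ε) :
    ∃ (K : ℕ) (δ : ℝ) (Y1 : ℕ), 0 < δ ∧ ∀ (Y : ℕ), 2 ≤ Y → Y1 ≤ Y → ∀ (c : Fin r → κ → ℤ),
      FinStab m c → ∀ H : ℕ, 2 ≤ H → (H : ℝ) ≤ Real.exp ((Y : ℝ) ^ δ) →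
      (∀ q k, |c q k| ≤ (H : ℤ)) → ∃ 𝒢 : Finset (κ → ℚ), (∀ G ∈ 𝒢, G ∉ Sp c) ∧
        (𝒢.card : ℝ) ≤ (Y : ℝ) ^ ε ∧ ∀ x, RPt m N δ Y c x →
        (∀ i, HtLe (((Y + 2) * H) ^ K) (x i)) ∨ ∃ G ∈ 𝒢, ev m G x = 0 := by
  classical
  obtain ⟨C, δ, Y1, hδ, HR⟩ := reps m r N (ε / 2) (by positivity)
  obtain ⟨K, hK⟩ := class_dich m
  obtain ⟨s, hs⟩ : ∃ s : ℕ, s = Fintype.card (Fin r × Finset κ) := ⟨_, rfl⟩
  refine ⟨(C + 1) * K, δ, Y1 + ⌈((s : ℝ) + 1) ^ (2 / ε)⌉₊, hδ,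
    fun Y hY hY1 c hst H hH2 hH hc => ?_⟩
  have hYr : (1 : ℝ) ≤ (Y : ℝ) := by exact_mod_cast (by omega : 1 ≤ Y)
  have hY0 : (0 : ℝ) < (Y : ℝ) := by linarith
  have h2d : (s : ℝ) + 1 ≤ (Y : ℝ) ^ (ε / 2) := by
    have h1 : ((s : ℝ) + 1) ^ (2 / ε) ≤ (Y : ℝ) := by
      refine (Nat.le_ceil _).trans ?_
      exact_mod_cast (by omega : ⌈((s : ℝ) + 1) ^ (2 / ε)⌉₊ ≤ Y)
    have h2 := Real.rpow_le_rpow (by positivity) h1 (show (0 : ℝ) ≤ ε / 2 by positivity)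
    rwa [← Real.rpow_mul (by positivity), show 2 / ε * (ε / 2) = 1 by field_simp,
      Real.rpow_one] at h2
  obtain ⟨L, hL1, hL2, hL3⟩ := HR Y hY (by omega) c (fun q k => by
    have h1 := hc q k
    have h2 : ((|c q k| : ℤ) : ℝ) ≤ (H : ℝ) := by exact_mod_cast h1
    exact h2.trans hH)
  obtain ⟨B, hB⟩ : ∃ B : ℕ, B = (Y + 2) ^ (C + 1) := ⟨_, rfl⟩
  have hB2 : 2 ≤ B := by
    rw [hB]
    calc 2 ≤ Y + 2 := by omega
      _ ≤ _ := Nat.le_self_pow (by omega) _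
  have hBC : (Y + 2) ^ C ≤ B := by
    rw [hB]
    exact Nat.pow_le_pow_right (by omega) (by omega)
  have hz : ∀ z ∈ L, ∃ G : κ → ℚ, (G ∉ Sp c ∧ ∀ x, RPt m N δ Y c x →
      CloseQ ((Y + 2) ^ C) x z → ev m G x = 0) ∨ ∀ x, RPt m N δ Y c x →
      CloseQ ((Y + 2) ^ C) x z → ∀ i, HtLe ((B * H) ^ K) (x i) := by
    intro z hz
    rcases hK r c hst B H hB2 hH2 hc z (hL1 z hz).zer.1
      {x | RPt m N δ Y c x ∧ CloseQ ((Y + 2) ^ C) x z} (fun x hx => hx.1.zer)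
      (fun x hx i => (hx.2 i).mono hBC) with ⟨G, h1, h2⟩ | h
    · exact ⟨G, Or.inl ⟨h1, fun x hx hc => h2 x ⟨hx, hc⟩⟩⟩
    · exact ⟨0, Or.inr fun x hx hc => h x ⟨hx, hc⟩⟩
  choose! G hG using hz
  obtain ⟨𝒢, h𝒢⟩ : ∃ 𝒢 : Finset (κ → ℚ), 𝒢 = (L.image G ∪ (Finset.univ :
      Finset (Fin r × Finset κ)).image fun p => part (fun k => (c p.1 k : ℚ)) p.2).filter
      fun G => G ∉ Sp c := ⟨_, rfl⟩
  refine ⟨𝒢, fun G hG => by
    rw [h𝒢, Finset.mem_filter] at hG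
    exact hG.2, ?_, fun x hx => ?_⟩
  · have h1 : 𝒢.card ≤ L.card + s := by
      rw [h𝒢]
      refine (Finset.card_filter_le _ _).trans ((Finset.card_union_le _ _).trans ?_)
      refine Nat.add_le_add Finset.card_image_le (Finset.card_image_le.trans ?_)
      rw [Finset.card_univ, hs]
    have h2 : (𝒢.card : ℝ) ≤ (L.card : ℝ) + s := by exact_mod_cast h1
    have h3 : (Y : ℝ) ^ ε = (Y : ℝ) ^ (ε / 2) * (Y : ℝ) ^ (ε / 2) := by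
      rw [← Real.rpow_add hY0]
      congr 1
      ring
    have h4 : (1 : ℝ) ≤ (Y : ℝ) ^ (ε / 2) := Real.one_le_rpow hYr (by positivity)
    have h5 : (0 : ℝ) ≤ s := Nat.cast_nonneg _
    rw [h3]
    nlinarith
  · rcases blk_or_part hst hx.zer with hb | ⟨q, W, h1, h2⟩
    · obtain ⟨z, hzL, hxz⟩ := hL3 x hx hb
      rcases hG z hzL with ⟨h1, h2⟩ | h
      · refine Or.inr ⟨G z, ?_, h2 x hx hxz⟩
        rw [h𝒢, Finset.mem_filter]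
        exact ⟨Finset.mem_union_left _ (Finset.mem_image_of_mem _ hzL), h1⟩
      · refine Or.inl fun i => ?_
        refine (h x hx hxz i).mono ?_
        rw [pow_mul]
        refine Nat.pow_le_pow_left ?_ K
        rw [hB, mul_pow]
        exact Nat.mul_le_mul_left _ (Nat.le_self_pow (by omega) H)
    · refine Or.inr ⟨_, ?_, h2⟩
      rw [h𝒢, Finset.mem_filter]
      exact ⟨Finset.mem_union_right _ (Finset.mem_image.2 ⟨(q, W), Finset.mem_univ _, rfl⟩), h1⟩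

end Pool.Agent.U583.TV
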