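import Mathlib
import Pool.Agent.U583.TV.Fix

/-!
# A weak truncated inequality on the closed subvarieties of tori
-/

set_option autoImplicit false

namespace Pool.Agent.U583.TV

open Pool.Agent.Y902.GN

/-- the primes at which the point `x` meets the boundary of the torus in `(P^1)^n` -/
def bad {n : ℕ} (x : Fin n → ℚ) : Finset ℕ :=
  Finset.univ.biUnion fun i => ((x i).num.natAbs * (x i).den).primeFactors

/-- the truncated counting function `N_S^(1)(D, x)` of the boundary `D` -/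
noncomputable def N1 {n : ℕ} (S : Finset ℕ) (x : Fin n → ℚ) : ℝ := ∑ p ∈ bad x \ S, Real.log p

/-- the height of `x`, with respect to `O(1, …, 1)` on `(P^1)^n` -/
noncomputable def ht {n : ℕ} (x : Fin n → ℚ) : ℝ :=
  ∑ i, Real.log (max (x i).num.natAbs (x i).den : ℕ)

theorem N1_nonneg {n : ℕ} (S : Finset ℕ) (x : Fin n → ℚ) : 0 ≤ N1 S x :=
  Finset.sum_nonneg fun p _ => Real.log_natCast_nonneg p

theorem ht_nonneg {n : ℕ} (x : Fin n → ℚ) : 0 ≤ ht x :=
  Finset.sum_nonneg fun i _ => Real.log_natCast_nonneg _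

theorem ht_le {n : ℕ} {x : Fin n → ℚ} {B : ℕ} (h : ∀ i, HtLe B (x i)) : ht x ≤ n * Real.log B := by
  unfold ht
  calc ∑ i, Real.log (max (x i).num.natAbs (x i).den : ℕ) ≤ ∑ _i : Fin n, Real.log B := by
        refine Finset.sum_le_sum fun i _ => ?_
        have h1 : max (x i).num.natAbs (x i).den ≤ B := htLe_iff.1 (h i)
        have h2 : 0 < max (x i).num.natAbs (x i).den := lt_max_of_lt_right (x i).pos
        exact Real.log_le_log (by exact_mod_cast h2) (by exact_mod_cast h1)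
    _ = _ := by simp

/-- the coordinates of `x` are up to sign products of powers of the same `N` integers
`1 ≤ b j ≤ exp (D (N1 + 1))`, with integral exponents of absolute value at most `exp (δ N1)` -/
def Gens {n : ℕ} (S : Finset ℕ) (N D : ℕ) (δ : ℝ) (x : Fin n → ℚ) : Prop :=
  ∃ (η : Fin n → ℤ) (b : Fin N → ℕ) (e : Fin n → Fin N → ℤ), (∀ i, |η i| = 1) ∧
    (∀ j, 1 ≤ b j ∧ (b j : ℝ) ≤ Real.exp (D * (N1 S x + 1))) ∧
    (∀ i j, ((e i j).natAbs : ℝ) ≤ Real.exp (δ * N1 S x)) ∧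
    ∀ i, x i = (η i : ℚ) * ∏ j, (b j : ℚ) ^ e i j

/-- the polynomials `c q` span all the polynomials with the same monomials which are zero on `X_c` -/
def Full {κ : Type} [Fintype κ] {n r : ℕ} (m : κ → Fin n → ℕ) (c : Fin r → κ → ℤ) : Prop :=
  ∀ G : κ → ℚ, (∀ y ∈ Zer ℂ m c, ev m G y = 0) → G ∈ Sp c

/-- the height of the equations -/
noncomputable def hc {κ : Type} [Fintype κ] {r : ℕ} (c : Fin r → κ → ℤ) : ℝ :=
  Real.log (1 + ∑ q, ∑ k, (c q k).natAbs : ℕ)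

theorem hc_nonneg {κ : Type} [Fintype κ] {r : ℕ} (c : Fin r → κ → ℤ) : 0 ≤ hc c :=
  Real.log_natCast_nonneg _

/-- the weak truncated inequality for the points with the property `P` -/
def Weak {κ : Type} [Fintype κ] {n : ℕ} (m : κ → Fin n → ℕ) (S : Finset ℕ) (r E : ℕ) (ε : ℝ)
    (P : ℝ → (Fin n → ℚ) → Prop) : Prop :=
  ∃ A δ : ℝ, 0 < δ ∧ ∀ c : Fin r → κ → ℤ, Full m c → FinStab m c → ∀ Z : ℕ, 2 ≤ Z →
    ∃ 𝒢 : Finset (κ → ℚ), (𝒢.card : ℝ) ≤ A * (Z : ℝ) ^ ε ∧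
      (∀ G ∈ 𝒢, ∃ y ∈ Zer ℂ m c, ev m G y ≠ 0) ∧
      ∀ x ∈ Zer ℚ m c, N1 S x ≤ Real.log Z → hc c ≤ E * Real.exp (δ * N1 S x) → P δ x →
        ht x ≤ A * (N1 S x + hc c + 1) ∨ ∃ G ∈ 𝒢, ev m G x = 0

variable {κ : Type} [Fintype κ] [DecidableEq κ] {n : ℕ}

/-- the height of a product of powers -/
theorem gens_ht {x : Fin n → ℚ} {N : ℕ} {η : Fin n → ℤ} {b : Fin N → ℕ} {e : Fin n → Fin N → ℤ}
    (hη : ∀ i, |η i| = 1) {Y F : ℕ} (hY : 1 ≤ Y) (hb : ∀ j, 1 ≤ b j ∧ b j ≤ Y)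
    (he : ∀ i j, (e i j).natAbs ≤ F) (hx : ∀ i, x i = (η i : ℚ) * ∏ j, (b j : ℚ) ^ e i j)
    (i : Fin n) : HtLe (Y ^ (F * N)) (x i) := by
  have h1 : HtLe 1 (η i : ℚ) := htLe_int le_rfl (by simp [hη i])
  have h2 := HtLe.prod Finset.univ (fun j => (b j : ℚ) ^ e i j) (fun _ => Y ^ F) (fun j _ => by
    have hb0 : (b j : ℚ) ≠ 0 := by
      have := (hb j).1
      exact_mod_cast (by omega : b j ≠ 0)
    have h3 : HtLe Y (b j : ℚ) := by
      have := htLe_int (B := Y) (a := (b j : ℤ)) hY (by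
        rw [Nat.abs_cast]
        exact_mod_cast (hb j).2)
      simpa using this
    exact (h3.zpow hb0 (e i j)).mono (Nat.pow_le_pow_right hY (he i j)))
  rw [hx i]
  refine (h1.mul h2).mono (le_of_eq ?_)
  rw [Finset.prod_const, Finset.card_univ, Fintype.card_fin, one_mul, ← pow_mul]

theorem weak_gens (m : κ → Fin n → ℕ) (S : Finset ℕ) (r N D E : ℕ) (ε : ℝ) (hε : 0 < ε) :
    Weak m S r E ε (Gens S N D) := by
  classical
  obtain ⟨ε', hε'⟩ : ∃ ε' : ℝ, ε' = ε / (2 * (D + 1)) := ⟨_, rfl⟩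
  have hε0 : 0 < ε' := by rw [hε']; positivity
  obtain ⟨K, δ', Y0, hδ', HF⟩ := fixedY m r N ε' hε0
  obtain ⟨δ, hδ, hδ2⟩ : ∃ δ : ℝ, 0 < δ ∧ δ' = 2 * δ := ⟨δ' / 2, by positivity, by ring⟩
  obtain ⟨Y1, hY1⟩ : ∃ Y1 : ℕ, Y1 = Y0 + ⌈((E : ℝ) + 1) ^ (1 / δ)⌉₊ := ⟨_, rfl⟩
  obtain ⟨A1, hA1⟩ : ∃ A1 : ℝ, A1 = (1 / (ε' * Real.log 2) + 1) *
      (2 * Real.exp (D + 1)) ^ (2 * ε') := ⟨_, rfl⟩
  obtain ⟨A2, hA2⟩ : ∃ A2 : ℝ, A2 = n * (K * (2 * (D + 2) + 1)) := ⟨_, rfl⟩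
  obtain ⟨A3, hA3⟩ : ∃ A3 : ℝ, A3 = n * Real.log ((Y1 + 1) ^ (⌊((Y1 : ℝ) + 1) ^ δ'⌋₊ * N) : ℕ) :=
    ⟨_, rfl⟩
  have hl2 : 0 < Real.log 2 := Real.log_pos one_lt_two
  have hA10 : 0 ≤ A1 := by rw [hA1]; positivity
  have hA20 : 0 ≤ A2 := by rw [hA2]; positivity
  have hA30 : 0 ≤ A3 := by
    rw [hA3]
    exact mul_nonneg (Nat.cast_nonneg _) (Real.log_natCast_nonneg _)
  refine ⟨A1 + A2 + A3, δ, hδ, fun c hF hst Z hZ => ?_⟩
  obtain ⟨H, hH⟩ : ∃ H : ℕ, H = 2 * (1 + ∑ q, ∑ k, (c q k).natAbs) := ⟨_, rfl⟩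
  have hH2 : 2 ≤ H := by omega
  have hHl : Real.log H ≤ hc c + 1 := by
    rw [hH, Nat.cast_mul, Real.log_mul (by norm_num) (by positivity)]
    have : Real.log ((2 : ℕ) : ℝ) ≤ 1 := by
      have := Real.log_two_lt_d9
      push_cast
      linarith
    unfold hc
    linarith
  have hcH : ∀ q k, |c q k| ≤ (H : ℤ) := fun q k => by
    have e1 : (c q k).natAbs ≤ ∑ q, ∑ k, (c q k).natAbs :=
      (Finset.single_le_sum (f := fun k => (c q k).natAbs) (fun _ _ => Nat.zero_le _)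
        (Finset.mem_univ k)).trans
      (Finset.single_le_sum (f := fun q => ∑ k, (c q k).natAbs) (fun _ _ => Nat.zero_le _)
        (Finset.mem_univ q))
    rw [Int.abs_eq_natAbs]
    exact_mod_cast (by omega : (c q k).natAbs ≤ H)
  have hH0 : (0 : ℝ) < (H : ℝ) := by exact_mod_cast (by omega : 0 < H)
  have hc0 := hc_nonneg c
  -- the exceptional equations for the powers of `2`
  have h1 : ∀ j : ℕ, ∃ 𝒢 : Finset (κ → ℚ), (∀ G ∈ 𝒢, G ∉ Sp c) ∧
      (𝒢.card : ℝ) ≤ ((2 ^ j : ℕ) : ℝ) ^ ε' ∧ (2 ≤ 2 ^ j → Y0 ≤ 2 ^ j →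
        (H : ℝ) ≤ Real.exp (((2 ^ j : ℕ) : ℝ) ^ δ') → ∀ x, RPt m N δ' (2 ^ j) c x →
        (∀ i, HtLe (((2 ^ j + 2) * H) ^ K) (x i)) ∨ ∃ G ∈ 𝒢, ev m G x = 0) := by
    intro j
    by_cases hj : 2 ≤ 2 ^ j ∧ Y0 ≤ 2 ^ j ∧ (H : ℝ) ≤ Real.exp (((2 ^ j : ℕ) : ℝ) ^ δ')
    · obtain ⟨𝒢, g1, g2, g3⟩ := HF (2 ^ j) hj.1 hj.2.1 c hst H hH2 hj.2.2 hcH
      exact ⟨𝒢, g1, g2, fun _ _ _ => g3⟩
    · refine ⟨∅, by simp, ?_, fun g1 g2 g3 => absurd ⟨g1, g2, g3⟩ hj⟩
      simp only [Finset.card_empty, Nat.cast_zero]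
      positivity
  choose 𝒢 g1 g2 g3 using h1
  have hZ0 : (0 : ℝ) < (Z : ℝ) := by exact_mod_cast (by omega : 0 < Z)
  have hlZ : 0 ≤ Real.log Z := Real.log_natCast_nonneg Z
  obtain ⟨J, hJ⟩ : ∃ J : ℕ, J = ⌈((D : ℝ) + 1) * (Real.log Z + 1) / Real.log 2⌉₊ := ⟨_, rfl⟩
  refine ⟨(Finset.range (J + 1)).biUnion 𝒢, ?_, ?_, ?_⟩
  · -- the number of equations
    have e1 : (((Finset.range (J + 1)).biUnion 𝒢).card : ℝ) ≤
        ((J : ℝ) + 1) * ((2 : ℝ) ^ J) ^ ε' := by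
      have e2 : (((Finset.range (J + 1)).biUnion 𝒢).card : ℝ) ≤
          ∑ j ∈ Finset.range (J + 1), ((𝒢 j).card : ℝ) := by
        exact_mod_cast Finset.card_biUnion_le
      refine e2.trans ?_
      calc ∑ j ∈ Finset.range (J + 1), ((𝒢 j).card : ℝ) ≤
            ∑ _j ∈ Finset.range (J + 1), ((2 : ℝ) ^ J) ^ ε' := by
            refine Finset.sum_le_sum fun j hj => (g2 j).trans ?_
            refine Real.rpow_le_rpow (by positivity) ?_ hε0.le
            push_cast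
            exact pow_le_pow_right₀ (by norm_num) (by
              have := Finset.mem_range.1 hj
              omega)
        _ = _ := by simp
    have e2 : (2 : ℝ) ^ J ≤ 2 * Real.exp (D + 1) * (Z : ℝ) ^ ((D : ℝ) + 1) := by
      have e3 : (J : ℝ) * Real.log 2 ≤ ((D : ℝ) + 1) * (Real.log Z + 1) + Real.log 2 := by
        have e4 : (J : ℝ) ≤ ((D : ℝ) + 1) * (Real.log Z + 1) / Real.log 2 + 1 := by
          rw [hJ]
          exact (Nat.ceil_lt_add_one (by positivity)).le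
        calc (J : ℝ) * Real.log 2 ≤
              (((D : ℝ) + 1) * (Real.log Z + 1) / Real.log 2 + 1) * Real.log 2 :=
              mul_le_mul_of_nonneg_right e4 hl2.le
          _ = _ := by field_simp
      calc (2 : ℝ) ^ J = Real.exp (J * Real.log 2) := by
            rw [Real.exp_nat_mul, Real.exp_log (by norm_num)]
        _ ≤ Real.exp (((D : ℝ) + 1) * (Real.log Z + 1) + Real.log 2) := Real.exp_le_exp.2 e3
        _ = _ := by
            rw [Real.exp_add, Real.exp_log (by norm_num), mul_add, mul_one, Real.exp_add,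
              Real.rpow_def_of_pos hZ0, mul_comm (Real.log Z)]
            ring
    have e3 : (J : ℝ) + 1 ≤ (1 / (ε' * Real.log 2) + 1) * ((2 : ℝ) ^ J) ^ ε' := by
      have e4 : Real.log ((2 : ℝ) ^ J) ≤ ((2 : ℝ) ^ J) ^ ε' / ε' :=
        Real.log_le_rpow_div (by positivity) hε0
      rw [Real.log_pow] at e4
      have e5 : (1 : ℝ) ≤ ((2 : ℝ) ^ J) ^ ε' :=
        Real.one_le_rpow (one_le_pow₀ (by norm_num)) hε0.le
      have e6 : (J : ℝ) ≤ 1 / (ε' * Real.log 2) * ((2 : ℝ) ^ J) ^ ε' := by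
        calc (J : ℝ) = (J * Real.log 2) / Real.log 2 := by field_simp
          _ ≤ (((2 : ℝ) ^ J) ^ ε' / ε') / Real.log 2 := by
              exact div_le_div_of_nonneg_right e4 hl2.le
          _ = _ := by field_simp
      rw [add_mul, one_mul]
      exact add_le_add e6 e5
    calc (((Finset.range (J + 1)).biUnion 𝒢).card : ℝ) ≤ ((J : ℝ) + 1) * ((2 : ℝ) ^ J) ^ ε' := e1
      _ ≤ ((1 / (ε' * Real.log 2) + 1) * ((2 : ℝ) ^ J) ^ ε') * ((2 : ℝ) ^ J) ^ ε' :=
          mul_le_mul_of_nonneg_right e3 (by positivity)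
      _ = (1 / (ε' * Real.log 2) + 1) * ((2 : ℝ) ^ J) ^ (2 * ε') := by
          rw [mul_assoc, ← Real.rpow_add (by positivity), two_mul]
      _ ≤ (1 / (ε' * Real.log 2) + 1) *
          (2 * Real.exp (D + 1) * (Z : ℝ) ^ ((D : ℝ) + 1)) ^ (2 * ε') := by
          refine mul_le_mul_of_nonneg_left ?_ (by positivity)
          exact Real.rpow_le_rpow (by positivity) e2 (by positivity)
      _ = A1 * (Z : ℝ) ^ ε := by
          rw [Real.mul_rpow (by positivity) (by positivity), ← Real.rpow_mul hZ0.le, hA1]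
          have : ((D : ℝ) + 1) * (2 * ε') = ε := by
            rw [hε']
            field_simp
          rw [this]
          ring
      _ ≤ _ := mul_le_mul_of_nonneg_right (by linarith) (by positivity)
  · intro G hG
    obtain ⟨j, _, hj⟩ := Finset.mem_biUnion.1 hG
    by_contra hcon
    push Not at hcon
    exact g1 j G hj (hF G hcon)
  · rintro x hx hxZ hcx ⟨η, b, e, hη, hb, he, hxe⟩
    have hN := N1_nonneg S x
    obtain ⟨L, hL⟩ : ∃ L : ℝ, L = N1 S x := ⟨_, rfl⟩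
    rw [← hL] at hN hb he hxZ hcx ⊢
    obtain ⟨j, hj⟩ : ∃ j : ℕ, j = ⌈((D : ℝ) + 1) * (L + 1) / Real.log 2⌉₊ := ⟨_, rfl⟩
    have hjJ : j ∈ Finset.range (J + 1) := by
      rw [Finset.mem_range, hj, hJ, Nat.lt_succ_iff]
      refine Nat.ceil_le_ceil ?_
      gcongr
    have hYlow : ((D : ℝ) + 1) * (L + 1) ≤ Real.log ((2 ^ j : ℕ) : ℝ) := by
      push_cast
      rw [Real.log_pow]
      have e1 : ((D : ℝ) + 1) * (L + 1) / Real.log 2 ≤ j := by
        rw [hj]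
        exact Nat.le_ceil _
      rwa [div_le_iff₀ hl2] at e1
    have hYup : Real.log ((2 ^ j : ℕ) : ℝ) ≤ (D + 2) * (L + 1) := by
      push_cast
      rw [Real.log_pow]
      have e4 : (j : ℝ) ≤ ((D : ℝ) + 1) * (L + 1) / Real.log 2 + 1 := by
        rw [hj]
        exact (Nat.ceil_lt_add_one (by positivity)).le
      have e5 : Real.log 2 ≤ 1 := by
        have := Real.log_two_lt_d9
        linarith
      calc (j : ℝ) * Real.log 2 ≤
              (((D : ℝ) + 1) * (L + 1) / Real.log 2 + 1) * Real.log 2 :=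
              mul_le_mul_of_nonneg_right e4 hl2.le
          _ = ((D : ℝ) + 1) * (L + 1) + Real.log 2 := by field_simp
          _ ≤ _ := by nlinarith
    obtain ⟨Y, hY⟩ : ∃ Y : ℕ, Y = 2 ^ j := ⟨_, rfl⟩
    have g3' := g3 j
    rw [← hY] at hYlow hYup g3'
    have hY0 : (0 : ℝ) < (Y : ℝ) := by
      rw [hY]
      positivity
    have hexp : ∀ t : ℝ, t ≤ ((D : ℝ) + 1) * (L + 1) → Real.exp t ≤ (Y : ℝ) := fun t ht => by
      rw [← Real.exp_log hY0]
      exact Real.exp_le_exp.2 (ht.trans hYlow)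
    have hD0 : (0 : ℝ) ≤ (D : ℝ) := Nat.cast_nonneg D
    have hY2 : 2 ≤ Y := by
      have e1 : Real.exp 1 ≤ (Y : ℝ) := hexp 1 (by nlinarith)
      have e2 : (2 : ℝ) ≤ Real.exp 1 := by
        have := Real.add_one_le_exp (1 : ℝ)
        linarith
      exact_mod_cast e2.trans e1
    have hbY : ∀ j, 1 ≤ b j ∧ b j ≤ Y := fun j => ⟨(hb j).1, by
      have := (hb j).2.trans (hexp (D * (L + 1)) (by nlinarith))
      exact_mod_cast this⟩
    have hY1r : (1 : ℝ) ≤ (Y : ℝ) := by exact_mod_cast (by omega : 1 ≤ Y)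
    have hLY : Real.exp (δ * L) ≤ (Y : ℝ) ^ δ := by
      rw [mul_comm, Real.exp_mul]
      exact Real.rpow_le_rpow (Real.exp_pos _).le (hexp L (by nlinarith)) hδ.le
    have hδδ : (Y : ℝ) ^ δ' = (Y : ℝ) ^ δ * (Y : ℝ) ^ δ := by
      rw [← Real.rpow_add hY0, hδ2, two_mul]
    have hYδ1 : (1 : ℝ) ≤ (Y : ℝ) ^ δ := Real.one_le_rpow hY1r hδ.le
    have heY : ∀ i j, ((e i j).natAbs : ℝ) ≤ (Y : ℝ) ^ δ' := fun i j => by
      refine ((he i j).trans hLY).trans ?_
      rw [hδδ]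
      exact le_mul_of_one_le_right (by positivity) hYδ1
    by_cases hYY : Y1 ≤ Y
    · have hR : RPt m N δ' Y c x := ⟨hx, η, b, e, hη, hbY, heY, hxe⟩
      have hEY : (E : ℝ) + 1 ≤ (Y : ℝ) ^ δ := by
        have h1 : ((E : ℝ) + 1) ^ (1 / δ) ≤ (Y : ℝ) := by
          refine (Nat.le_ceil _).trans ?_
          exact_mod_cast (by omega : ⌈((E : ℝ) + 1) ^ (1 / δ)⌉₊ ≤ Y)
        have h2 := Real.rpow_le_rpow (by positivity) h1 hδ.le
        rwa [← Real.rpow_mul (by positivity), one_div_mul_cancel hδ.ne', Real.rpow_one] at h2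
      have hHY : (H : ℝ) ≤ Real.exp ((Y : ℝ) ^ δ') := by
        rw [← Real.exp_log hH0]
        apply Real.exp_le_exp.2
        rw [hδδ]
        have e1 : (1 : ℝ) ≤ Real.exp (δ * L) := Real.one_le_exp (by positivity)
        have e2 : (0 : ℝ) ≤ (E : ℝ) := Nat.cast_nonneg E
        calc Real.log H ≤ hc c + 1 := hHl
          _ ≤ E * Real.exp (δ * L) + Real.exp (δ * L) := add_le_add hcx e1
          _ = ((E : ℝ) + 1) * Real.exp (δ * L) := by ring
          _ ≤ _ := mul_le_mul hEY hLY (Real.exp_pos _).le (by positivity)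
      rcases g3' hY2 (by omega) hHY x hR with h | ⟨G, hG, hGx⟩
      · left
        have e1 := ht_le h
        have e2 : Real.log ((((Y + 2) * H) ^ K : ℕ) : ℝ) ≤
            K * (2 * ((D + 2) * (L + 1)) + (hc c + 1)) := by
          push_cast
          rw [Real.log_pow]
          refine mul_le_mul_of_nonneg_left ?_ (Nat.cast_nonneg K)
          rw [Real.log_mul (by positivity) hH0.ne']
          have e3 : (Y : ℝ) + 2 ≤ (Y : ℝ) ^ 2 := by
            have : (2 : ℝ) ≤ (Y : ℝ) := by exact_mod_cast hY2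
            nlinarith
          have e4 : Real.log ((Y : ℝ) + 2) ≤ 2 * ((D + 2) * (L + 1)) := by
            calc Real.log ((Y : ℝ) + 2) ≤ Real.log ((Y : ℝ) ^ 2) :=
                  Real.log_le_log (by positivity) e3
              _ = 2 * Real.log Y := by rw [Real.log_pow]; norm_num
              _ ≤ _ := by linarith
          linarith
        have e5 : 2 * (((D : ℝ) + 2) * (L + 1)) + (hc c + 1) ≤
            (2 * (D + 2) + 1) * (L + hc c + 1) := by
          have e6 : (2 * ((D : ℝ) + 2) + 1) * (L + hc c + 1) = 2 * (((D : ℝ) + 2) * (L + 1)) +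
              (hc c + 1) + (2 * ((D : ℝ) + 2) * hc c + L) := by ring
          have e7 : 0 ≤ 2 * ((D : ℝ) + 2) * hc c := by positivity
          rw [e6]
          linarith
        calc ht x ≤ n * Real.log ((((Y + 2) * H) ^ K : ℕ) : ℝ) := e1
          _ ≤ n * (K * (2 * ((D + 2) * (L + 1)) + (hc c + 1))) :=
              mul_le_mul_of_nonneg_left e2 (Nat.cast_nonneg n)
          _ ≤ n * (K * ((2 * (D + 2) + 1) * (L + hc c + 1))) :=
              mul_le_mul_of_nonneg_left (mul_le_mul_of_nonneg_left e5 (Nat.cast_nonneg K))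
                (Nat.cast_nonneg n)
          _ = A2 * (L + hc c + 1) := by rw [hA2]; ring
          _ ≤ _ := mul_le_mul_of_nonneg_right (by linarith) (by linarith)
      · exact Or.inr ⟨G, Finset.mem_biUnion.2 ⟨j, hjJ, hG⟩, hGx⟩
    · left
      have e1 := ht_le (fun i => gens_ht hη (Y := Y1 + 1) (F := ⌊((Y1 : ℝ) + 1) ^ δ'⌋₊)
        (by omega) (fun j => ⟨(hb j).1, (hbY j).2.trans (by omega)⟩) (fun i j => by
          refine Nat.le_floor ((heY i j).trans ?_)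
          refine Real.rpow_le_rpow hY0.le ?_ hδ'.le
          have : (Y : ℝ) ≤ (Y1 : ℝ) := by exact_mod_cast (by omega : Y ≤ Y1)
          linarith) hxe i)
      rw [← hA3] at e1
      have e2 : A3 ≤ (A1 + A2 + A3) * (L + hc c + 1) := by
        have e6 : A3 ≤ A1 + A2 + A3 := by linarith
        have e7 : (1 : ℝ) ≤ L + hc c + 1 := by linarith
        exact e6.trans (le_mul_of_one_le_right (by linarith) e7)
      exact e1.trans e2

end Pool.Agent.U583.TV
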