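import Mathlib
import Pool.Agent.U583.TV.Main

/-!
# Points which meet the boundary with few multiplicities
-/

set_option autoImplicit false

namespace Pool.Agent.U583.TV

open Pool.Agent.Y902.GN

/-- the multiplicities with which `x` meets the components of the boundary at the prime `p`: the `p`-adic
valuations of the coordinates -/
def mult {n : ℕ} (x : Fin n → ℚ) (p : ℕ) : Fin n → ℤ := fun i => padicValRat p (x i)

theorem nat_prod {a : ℕ} (ha : a ≠ 0) (T : Finset ℕ) (h : a.primeFactors ⊆ T) :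
    a = ∏ p ∈ T, p ^ padicValNat p a ∨ ∃ p ∈ T, ¬ p.Prime := by
  by_cases hT : ∃ p ∈ T, ¬ p.Prime
  · exact Or.inr hT
  push Not at hT
  left
  have h2 := Nat.prod_factorization_pow_eq_self ha
  rw [Finsupp.prod] at h2
  conv_lhs => rw [← h2]
  have h3 : ∏ p ∈ a.factorization.support, p ^ a.factorization p =
      ∏ p ∈ T, p ^ a.factorization p := by
    refine Finset.prod_subset h ?_
    intro p _ hp
    have : a.factorization p = 0 := Finsupp.notMem_support_iff.1 hp
    rw [this, pow_zero]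
  rw [h3]
  refine Finset.prod_congr rfl fun p hp => ?_
  rw [Nat.factorization_def _ (hT p hp)]

theorem rat_prod {x : ℚ} (hx : x ≠ 0) (T : Finset ℕ) (hT : ∀ p ∈ T, p.Prime)
    (h : (x.num.natAbs * x.den).primeFactors ⊆ T) :
    x = (x.num.sign : ℚ) * ∏ p ∈ T, (p : ℚ) ^ padicValRat p x := by
  have hn0 : x.num.natAbs ≠ 0 := Int.natAbs_ne_zero.2 (Rat.num_ne_zero.2 hx)
  have hd0 : x.den ≠ 0 := x.den_nz
  have hsub := Nat.primeFactors_mul hn0 hd0
  rw [hsub] at h
  have hn := (nat_prod hn0 T (Finset.union_subset_left h)).resolve_right (by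
    push Not
    exact hT)
  have hd := (nat_prod hd0 T (Finset.union_subset_right h)).resolve_right (by
    push Not
    exact hT)
  have e1 : ∏ p ∈ T, (p : ℚ) ^ padicValRat p x = (x.num.natAbs : ℚ) / x.den := by
    have e2 : (x.num.natAbs : ℚ) = ∏ p ∈ T, (p : ℚ) ^ padicValNat p x.num.natAbs := by
      exact_mod_cast congrArg (Nat.cast : ℕ → ℚ) hn
    have e3 : (x.den : ℚ) = ∏ p ∈ T, (p : ℚ) ^ padicValNat p x.den := by
      exact_mod_cast congrArg (Nat.cast : ℕ → ℚ) hd
    rw [e2, e3, ← Finset.prod_div_distrib]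
    refine Finset.prod_congr rfl fun p hp => ?_
    have hp0 : (p : ℚ) ≠ 0 := by exact_mod_cast (hT p hp).ne_zero
    rw [padicValRat, padicValInt, zpow_sub₀ hp0, zpow_natCast, zpow_natCast]
  rw [e1]
  have e4 : (x.num.sign : ℚ) * (x.num.natAbs : ℚ) = (x.num : ℚ) := by
    have e5 : ((x.num.sign * (x.num.natAbs : ℤ) : ℤ) : ℚ) = (x.num : ℚ) := by
      rw [Int.sign_mul_natAbs]
    rwa [Int.cast_mul, Int.cast_natCast] at e5
  rw [← mul_div_assoc, e4, Rat.num_div_den]

theorem val_log {a p : ℕ} (ha : a ≠ 0) (hp : p.Prime) :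
    (padicValNat p a : ℝ) * Real.log 2 ≤ Real.log a := by
  have h1 : p ^ padicValNat p a ≤ a := Nat.le_of_dvd (Nat.pos_of_ne_zero ha) pow_padicValNat_dvd
  have h2 : 2 ^ padicValNat p a ≤ a := (Nat.pow_le_pow_left hp.two_le _).trans h1
  have h3 : ((2 : ℝ)) ^ padicValNat p a ≤ (a : ℝ) := by exact_mod_cast h2
  have h4 := Real.log_le_log (by positivity) h3
  rwa [Real.log_pow] at h4

theorem val_ht {n : ℕ} {x : Fin n → ℚ} (hx : ∀ i, x i ≠ 0) {p : ℕ} (hp : p.Prime) (i : Fin n) :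
    ((mult x p i).natAbs : ℝ) ≤ 2 * ht x := by
  have h1 : Real.log (max (x i).num.natAbs (x i).den : ℕ) ≤ ht x :=
    Finset.single_le_sum (f := fun i => Real.log (max (x i).num.natAbs (x i).den : ℕ))
      (fun _ _ => Real.log_natCast_nonneg _) (Finset.mem_univ i)
  have hn0 : (x i).num.natAbs ≠ 0 := Int.natAbs_ne_zero.2 (Rat.num_ne_zero.2 (hx i))
  have h2 := val_log hn0 hp
  have h3 := val_log (x i).den_nz hp
  have h4 : Real.log ((x i).num.natAbs : ℝ) ≤ Real.log (max (x i).num.natAbs (x i).den : ℕ) := by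
    refine Real.log_le_log ?_ ?_
    · exact_mod_cast Nat.pos_of_ne_zero hn0
    · exact_mod_cast le_max_left _ _
  have h5 : Real.log ((x i).den : ℝ) ≤ Real.log (max (x i).num.natAbs (x i).den : ℕ) := by
    refine Real.log_le_log ?_ ?_
    · exact_mod_cast (x i).pos
    · exact_mod_cast le_max_right _ _
  have h6 : (mult x p i).natAbs ≤ max (padicValNat p (x i).num.natAbs) (padicValNat p (x i).den) := by
    unfold mult
    rw [padicValRat, padicValInt]
    omega
  have h7 : (((mult x p i).natAbs : ℕ) : ℝ) ≤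
      max (padicValNat p (x i).num.natAbs : ℝ) (padicValNat p (x i).den : ℝ) := by
    exact_mod_cast h6
  have hl2 : (1 : ℝ) / 2 < Real.log 2 := by
    have := Real.log_two_gt_d9
    linarith
  have h8 : max (padicValNat p (x i).num.natAbs : ℝ) (padicValNat p (x i).den : ℝ) *
      Real.log 2 ≤ ht x := by
    rcases max_choice (padicValNat p (x i).num.natAbs : ℝ) (padicValNat p (x i).den : ℝ) with h | h
    · rw [h]
      linarith
    · rw [h]
      linarith
  have h9 : (0 : ℝ) ≤ (((mult x p i).natAbs : ℕ) : ℝ) := Nat.cast_nonneg _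
  nlinarith

/-- up to differences at most `D`, the multiplicities of `x` at the primes outside of `S` take at most `N` values -/
def FewMult {n : ℕ} (S : Finset ℕ) (N D : ℕ) (x : Fin n → ℚ) : Prop :=
  ∃ W : Finset (Fin n → ℤ), W.card ≤ N ∧
    ∀ p ∈ bad x \ S, ∃ w ∈ W, ∀ i, |mult x p i - w i| ≤ (D : ℤ)

theorem prod_pow_le {n : ℕ} {x : Fin n → ℚ} {S : Finset ℕ} (T : Finset ℕ) (hT : T ⊆ bad x \ S)
    (hp : ∀ p ∈ T, p.Prime) (f : ℕ → ℕ) {D : ℕ} (hf : ∀ p ∈ T, f p ≤ D) :
    1 ≤ ∏ p ∈ T, p ^ f p ∧ ((∏ p ∈ T, p ^ f p : ℕ) : ℝ) ≤ Real.exp (D * N1 S x) := by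
  refine ⟨Finset.one_le_prod' fun p h => Nat.one_le_pow _ _ (hp p h).pos, ?_⟩
  have h1 : ((∏ p ∈ T, p ^ f p : ℕ) : ℝ) = Real.exp (∑ p ∈ T, f p * Real.log p) := by
    rw [Real.exp_sum]
    push_cast
    refine Finset.prod_congr rfl fun p h => ?_
    rw [Real.exp_nat_mul, Real.exp_log]
    exact_mod_cast (hp p h).pos
  rw [h1]
  apply Real.exp_le_exp.2
  calc ∑ p ∈ T, (f p : ℝ) * Real.log p ≤ ∑ p ∈ T, (D : ℝ) * Real.log p := by
        refine Finset.sum_le_sum fun p h => ?_
        exact mul_le_mul_of_nonneg_right (by exact_mod_cast hf p h) (Real.log_natCast_nonneg p)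
    _ = D * ∑ p ∈ T, Real.log p := by rw [Finset.mul_sum]
    _ ≤ _ := by
        refine mul_le_mul_of_nonneg_left ?_ (Nat.cast_nonneg D)
        exact Finset.sum_le_sum_of_subset_of_nonneg hT fun _ _ _ => Real.log_natCast_nonneg _

theorem gens_of_mult {n : ℕ} {x : Fin n → ℚ} (hx : ∀ i, x i ≠ 0) (S : Finset ℕ) {N D : ℕ}
    (hN : FewMult S N D x) {δ : ℝ} (hδ : 2 * ht x + D ≤ Real.exp (δ * N1 S x)) (hδ0 : 0 ≤ δ) :
    Gens S (N + (n + n) + S.card) (D + S.sup id + 1) δ x := by
  classical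
  obtain ⟨W, hW, hWp⟩ := hN
  have hT : ∀ p ∈ bad x, p.Prime := fun p hp => by
    obtain ⟨i, _, hi⟩ := Finset.mem_biUnion.1 hp
    exact Nat.prime_of_mem_primeFactors hi
  choose! a ha1 ha2 using hWp
  obtain ⟨I, hI⟩ : ∃ I : Finset (Fin n → ℤ), I = (bad x \ S).image a := ⟨_, rfl⟩
  have hIN : I.card ≤ N := by
    refine le_trans (Finset.card_le_card ?_) hW
    intro w hw
    rw [hI, Finset.mem_image] at hw
    obtain ⟨p, hp, rfl⟩ := hw
    exact ha1 p hp
  have hTS : ∀ p ∈ bad x \ S, p.Prime := fun p hp => hT p (Finset.mem_sdiff.1 hp).1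
  have hcard : Fintype.card ({v // v ∈ I} ⊕ ((Fin n ⊕ Fin n) ⊕ {p // p ∈ bad x ∩ S})) ≤
      Fintype.card (Fin (N + (n + n) + S.card)) := by
    rw [Fintype.card_sum, Fintype.card_sum, Fintype.card_sum, Fintype.card_coe, Fintype.card_coe,
      Fintype.card_fin, Fintype.card_fin]
    have := Finset.card_le_card (Finset.inter_subset_right (s₁ := bad x) (s₂ := S))
    omega
  obtain ⟨f⟩ := Function.Embedding.nonempty_of_card_le hcard
  obtain ⟨g, hg⟩ : ∃ g : {v // v ∈ I} ⊕ ((Fin n ⊕ Fin n) ⊕ {p // p ∈ bad x ∩ S}) → ℕ,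
      g = Sum.elim (fun v => ∏ p ∈ (bad x \ S).filter (fun p => a p = v.1), p ^ 1)
        (Sum.elim (Sum.elim (fun i => ∏ p ∈ bad x \ S, p ^ (mult x p i - a p i).toNat)
          fun i => ∏ p ∈ bad x \ S, p ^ (-(mult x p i - a p i)).toNat) fun p => p.1) := ⟨_, rfl⟩
  obtain ⟨e, he⟩ : ∃ e : Fin n → {v // v ∈ I} ⊕ ((Fin n ⊕ Fin n) ⊕ {p // p ∈ bad x ∩ S}) → ℤ,
      e = fun i => Sum.elim (fun v => v.1 i) (Sum.elim (Sum.elim (fun i' => if i' = i then 1 else 0)
        fun i' => if i' = i then -1 else 0) (fun p => mult x p.1 i)) := ⟨_, rfl⟩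
  have hN0 := N1_nonneg S x
  have hD0 : (0 : ℝ) ≤ (D : ℝ) := Nat.cast_nonneg D
  have hS0 : (0 : ℝ) ≤ ((S.sup id : ℕ) : ℝ) := Nat.cast_nonneg _
  have hcast : ((D + S.sup id + 1 : ℕ) : ℝ) = (D : ℝ) + ((S.sup id : ℕ) : ℝ) + 1 := by push_cast; rfl
  have hbig : ∀ t : ℝ, t ≤ ((D : ℝ) + 1) * N1 S x →
      Real.exp t ≤ Real.exp (((D + S.sup id + 1 : ℕ) : ℝ) * (N1 S x + 1)) := fun t ht => by
    apply Real.exp_le_exp.2
    rw [hcast]
    nlinarith [mul_nonneg hS0 hN0]
  have hg1 : ∀ t, 1 ≤ g t ∧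
      (g t : ℝ) ≤ Real.exp (((D + S.sup id + 1 : ℕ) : ℝ) * (N1 S x + 1)) := by
    intro t
    rw [hg]
    rcases t with v | ((i | i) | p)
    · simp only [Sum.elim_inl]
      have h1 := prod_pow_le (x := x) (S := S) ((bad x \ S).filter (fun p => a p = v.1))
        (Finset.filter_subset _ _) (fun p hp => hTS p (Finset.mem_filter.1 hp).1) (fun _ => 1)
        (D := 1) (fun _ _ => le_refl 1)
      refine ⟨h1.1, h1.2.trans (hbig _ ?_)⟩
      push_cast
      nlinarith
    · simp only [Sum.elim_inl, Sum.elim_inr]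
      have h1 := prod_pow_le (x := x) (S := S) (bad x \ S) subset_rfl hTS
        (fun p => (mult x p i - a p i).toNat) (D := D) (fun p hp => by
          have := ha2 p hp i
          have := le_abs_self (mult x p i - a p i)
          show (mult x p i - a p i).toNat ≤ D
          omega)
      refine ⟨h1.1, h1.2.trans (hbig _ ?_)⟩
      nlinarith
    · simp only [Sum.elim_inl, Sum.elim_inr]
      have h1 := prod_pow_le (x := x) (S := S) (bad x \ S) subset_rfl hTS
        (fun p => (-(mult x p i - a p i)).toNat) (D := D) (fun p hp => by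
          have := ha2 p hp i
          have := neg_abs_le (mult x p i - a p i)
          show (-(mult x p i - a p i)).toNat ≤ D
          omega)
      refine ⟨h1.1, h1.2.trans (hbig _ ?_)⟩
      nlinarith
    · simp only [Sum.elim_inr]
      obtain ⟨h1, h2⟩ := Finset.mem_inter.1 p.2
      refine ⟨(hT _ h1).one_le, ?_⟩
      have h3 : (p.1 : ℕ) ≤ S.sup id := Finset.le_sup (f := id) h2
      have h4 : ((p.1 : ℕ) : ℝ) ≤ ((S.sup id : ℕ) : ℝ) := by exact_mod_cast h3
      have h6 := Real.add_one_le_exp (((D + S.sup id + 1 : ℕ) : ℝ) * (N1 S x + 1))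
      rw [hcast] at h6 ⊢
      nlinarith [mul_nonneg hS0 hN0, mul_nonneg hD0 hN0]
  have hval : ∀ p ∈ bad x, ∀ i, ((mult x p i).natAbs : ℝ) ≤ 2 * ht x := fun p hp i =>
    val_ht hx (hT p hp) i
  have hht := ht_nonneg x
  have hee : ∀ i t, ((e i t).natAbs : ℝ) ≤ Real.exp (δ * N1 S x) := by
    intro i t
    have hexp1 : (1 : ℝ) ≤ Real.exp (δ * N1 S x) := Real.one_le_exp (mul_nonneg hδ0 hN0)
    rw [he]
    rcases t with v | ((i' | i') | p)
    · simp only [Sum.elim_inl]
      obtain ⟨p, hp, hpv⟩ := Finset.mem_image.1 (hI.le v.2)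
      rw [← hpv]
      refine le_trans ?_ hδ
      have h1 := abs_le.1 (ha2 p hp i)
      have h2 : (a p i).natAbs ≤ (mult x p i).natAbs + D := by omega
      have h3 : ((a p i).natAbs : ℝ) ≤ ((mult x p i).natAbs : ℝ) + D := by exact_mod_cast h2
      have h4 := hval p (Finset.mem_sdiff.1 hp).1 i
      linarith
    · simp only [Sum.elim_inl, Sum.elim_inr]
      split_ifs
      · simpa using hexp1
      · simpa using (Real.exp_pos (δ * N1 S x)).le
    · simp only [Sum.elim_inl, Sum.elim_inr]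
      split_ifs
      · simpa using hexp1
      · simpa using (Real.exp_pos (δ * N1 S x)).le
    · simp only [Sum.elim_inr]
      refine le_trans ?_ hδ
      have h4 := hval _ (Finset.mem_inter.1 p.2).1 i
      linarith
  have hpe : ∀ i, ∏ t, (g t : ℚ) ^ e i t = ∏ p ∈ bad x, (p : ℚ) ^ mult x p i := by
    intro i
    rw [Fintype.prod_sum_type, Fintype.prod_sum_type, Fintype.prod_sum_type]
    have h1 : ∏ v : {v // v ∈ I}, (g (Sum.inl v) : ℚ) ^ e i (Sum.inl v) =
        ∏ p ∈ bad x \ S, (p : ℚ) ^ a p i := by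
      rw [hg, he]
      simp only [Sum.elim_inl, pow_one]
      rw [Finset.prod_coe_sort I (fun v => ((∏ p ∈ (bad x \ S).filter (fun p => a p = v),
        p : ℕ) : ℚ) ^ v i)]
      rw [← Finset.prod_fiberwise_of_maps_to (s := bad x \ S) (t := I) (g := a) (fun p hp => by
        rw [hI]
        exact Finset.mem_image_of_mem _ hp)]
      refine Finset.prod_congr rfl fun v _ => ?_
      push_cast
      rw [← Finset.prod_zpow]
      refine Finset.prod_congr rfl fun p hp => ?_
      rw [(Finset.mem_filter.1 hp).2]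
    have h2 : ∏ p : {p // p ∈ bad x ∩ S}, (g (Sum.inr (Sum.inr p)) : ℚ) ^
        e i (Sum.inr (Sum.inr p)) = ∏ p ∈ bad x ∩ S, (p : ℚ) ^ mult x p i := by
      rw [hg, he]
      simp only [Sum.elim_inr]
      rw [Finset.prod_coe_sort (bad x ∩ S) (fun p => (p : ℚ) ^ mult x p i)]
    have h3 : ∏ i' : Fin n, (g (Sum.inr (Sum.inl (Sum.inl i'))) : ℚ) ^
        e i (Sum.inr (Sum.inl (Sum.inl i'))) =
        ∏ p ∈ bad x \ S, (p : ℚ) ^ ((mult x p i - a p i).toNat : ℤ) := by
      rw [Finset.prod_eq_single i]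
      · rw [hg, he]
        simp only [Sum.elim_inr, Sum.elim_inl, if_true, zpow_one]
        push_cast
        rfl
      · intro i' _ hi'
        rw [he]
        simp only [Sum.elim_inr, Sum.elim_inl]
        rw [if_neg hi', zpow_zero]
      · intro h
        exact absurd (Finset.mem_univ i) h
    have h4 : ∏ i' : Fin n, (g (Sum.inr (Sum.inl (Sum.inr i'))) : ℚ) ^
        e i (Sum.inr (Sum.inl (Sum.inr i'))) =
        ∏ p ∈ bad x \ S, (p : ℚ) ^ (-((-(mult x p i - a p i)).toNat : ℤ)) := by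
      rw [Finset.prod_eq_single i]
      · rw [hg, he]
        simp only [Sum.elim_inr, Sum.elim_inl, if_true, zpow_neg, zpow_one]
        rw [Finset.prod_inv_distrib]
        push_cast
        rfl
      · intro i' _ hi'
        rw [he]
        simp only [Sum.elim_inr, Sum.elim_inl]
        rw [if_neg hi', zpow_zero]
      · intro h
        exact absurd (Finset.mem_univ i) h
    rw [h1, h2, h3, h4, ← Finset.prod_mul_distrib]
    have h5 : (∏ p ∈ bad x \ S, (p : ℚ) ^ a p i) * ∏ p ∈ bad x \ S,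
        (p : ℚ) ^ ((mult x p i - a p i).toNat : ℤ) *
          (p : ℚ) ^ (-((-(mult x p i - a p i)).toNat : ℤ)) =
        ∏ p ∈ bad x \ S, (p : ℚ) ^ mult x p i := by
      rw [← Finset.prod_mul_distrib]
      refine Finset.prod_congr rfl fun p hp => ?_
      have hp0 : (p : ℚ) ≠ 0 := by exact_mod_cast (hTS p hp).ne_zero
      rw [← zpow_add₀ hp0, ← zpow_add₀ hp0]
      congr 1
      omega
    rw [← mul_assoc, h5, mul_comm]
    exact Finset.prod_inter_mul_prod_sdiff _ _ _
  refine ⟨fun i => (x i).num.sign, Function.extend f g 1, fun i => Function.extend f (e i) 0,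
    fun i => ?_, fun j => ?_, fun i j => ?_, fun i => ?_⟩
  · rcases lt_or_gt_of_ne (Rat.num_ne_zero.2 (hx i)) with h1 | h1
    · simp [Int.sign_eq_neg_one_of_neg h1]
    · simp [Int.sign_eq_one_of_pos h1]
  · by_cases hj : ∃ t, f t = j
    · obtain ⟨t, rfl⟩ := hj
      rw [f.injective.extend_apply]
      exact hg1 t
    · rw [Function.extend_apply' _ _ _ hj]
      simp only [Pi.one_apply, Nat.cast_one]
      exact ⟨le_refl 1, Real.one_le_exp (by positivity)⟩
  · beta_reduce
    by_cases hj : ∃ t, f t = j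
    · obtain ⟨t, rfl⟩ := hj
      rw [f.injective.extend_apply]
      exact hee i t
    · rw [Function.extend_apply' _ _ _ hj]
      simp only [Pi.zero_apply, Int.natAbs_zero, Nat.cast_zero]
      exact (Real.exp_pos _).le
  · have h1 : ∏ j, ((Function.extend f g 1 j : ℕ) : ℚ) ^ (Function.extend f (e i) 0 j : ℤ) =
        ∏ t, (g t : ℚ) ^ e i t := by
      symm
      refine Fintype.prod_of_injective f f.injective _ _ (fun j hj => ?_) (fun t => ?_)
      · have hj' : ¬ ∃ t, f t = j := hj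
        rw [Function.extend_apply' _ _ _ hj', Function.extend_apply' _ _ _ hj']
        simp
      · rw [f.injective.extend_apply, f.injective.extend_apply]
    rw [h1, hpe]
    exact rat_prod (hx i) (bad x) hT (fun p hp => Finset.mem_biUnion.2
      ⟨i, Finset.mem_univ _, hp⟩)

variable {κ : Type} [Fintype κ] [DecidableEq κ] {n : ℕ}

theorem weak_mult (m : κ → Fin n → ℕ) (S : Finset ℕ) (r N D E : ℕ) (ε : ℝ) (hε : 0 < ε) :
    Weak m S r E ε fun δ x => FewMult S N D x ∧ ht x ≤ Real.exp (δ * N1 S x) := by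
  obtain ⟨A, δ, hδ, H⟩ := weak_gens m S r (N + (n + n) + S.card) (D + S.sup id + 1) E ε hε
  refine ⟨|A| + (D + 2), δ / 2, by positivity, fun c hF hst Z hZ => ?_⟩
  obtain ⟨𝒢, g1, g2, g3⟩ := H c hF hst Z hZ
  have hD0 : (0 : ℝ) ≤ (D : ℝ) := Nat.cast_nonneg D
  have hA : A ≤ |A| + (D + 2) := (le_abs_self A).trans (by linarith)
  refine ⟨𝒢, g1.trans (mul_le_mul_of_nonneg_right hA (by positivity)), g2,
    fun x hx h1 h2 h3 => ?_⟩
  have hN0 := N1_nonneg S x
  have hA0 := abs_nonneg A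
  have hc0 := hc_nonneg c
  have hh : Real.exp (δ / 2 * N1 S x) ≤ Real.exp (δ * N1 S x) :=
    Real.exp_le_exp.2 (by nlinarith)
  have h2' : hc c ≤ E * Real.exp (δ * N1 S x) :=
    h2.trans (mul_le_mul_of_nonneg_left hh (Nat.cast_nonneg E))
  rcases lt_or_ge (Real.exp (δ / 2 * N1 S x)) (D + 2) with h | h
  · left
    have h5 := h3.2
    have h6 : (D : ℝ) + 2 ≤ |A| + (D + 2) := by linarith
    have h7 : (1 : ℝ) ≤ N1 S x + hc c + 1 := by linarith
    exact (h5.trans h.le).trans (h6.trans (le_mul_of_one_le_right (by linarith) h7))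
  · have h4 : 2 * ht x + D ≤ Real.exp (δ * N1 S x) := by
      have e1 : Real.exp (δ * N1 S x) = Real.exp (δ / 2 * N1 S x) * Real.exp (δ / 2 * N1 S x) := by
        rw [← Real.exp_add]
        congr 1
        ring
      have e2 : (1 : ℝ) ≤ Real.exp (δ / 2 * N1 S x) := Real.one_le_exp (by positivity)
      have e3 := h3.2
      rw [e1]
      calc 2 * ht x + D ≤ 2 * Real.exp (δ / 2 * N1 S x) + D * Real.exp (δ / 2 * N1 S x) :=
            add_le_add (by linarith) (le_mul_of_one_le_right hD0 e2)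
        _ = (D + 2) * Real.exp (δ / 2 * N1 S x) := by ring
        _ ≤ _ := mul_le_mul_of_nonneg_right h (Real.exp_pos _).le
    rcases g3 x hx h1 h2' (gens_of_mult hx.1 S h3.1 h4 hδ.le) with h5 | h5
    · exact Or.inl (h5.trans (mul_le_mul_of_nonneg_right hA (by linarith)))
    · exact Or.inr h5

end Pool.Agent.U583.TV
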